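import Pool.Agent.R783.T4.Cls

/-!
# The hull of an alternating `T4` configuration
-/

namespace Pool.Agent.R783.T4

open Set

theorem mem_W {S : Set V} {A0 A1 A2 A3 P0 P1 P2 P3 : V} {s0 s1 s2 s3 : ℝ}
    (h : Cyc A0 A1 A2 A3 P0 P1 P2 P3 s0 s1 s2 s3)
    (h0 : A0 ∈ S) (h1 : A1 ∈ S) (h2 : A2 ∈ S) (h3 : A3 ∈ S) (hF : ∀ p ∈ S, F p ≤ 0)
    (y0 : A0.2.1 = P0.2.1) (x1 : A1.1 = P1.1) (y2 : A2.2.1 = P2.2.1) (x3 : A3.1 = P3.1)
    {a b : ℝ} (ha : 0 ≤ a) (ha' : a ≤ 1) (hb : 0 ≤ b) (hb' : b ≤ 1) :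
    (1 - a) • ((1 - b) • P0 + b • P3) + a • ((1 - b) • P1 + b • P2) ∈ W S := by
  obtain ⟨w0, w1, w2, w3, g0, g1, g2, g3, hs, hw⟩ := h.hl.weights
  refine ⟨![A0, A1, A2, A3], ![w0, w1, w2, w3], ![s0, s1, s2, s3], P0, P1, P2, P3, a, b,
    ?_, ⟨?_, ?_⟩, ?_, ⟨ha, ha'⟩, ⟨hb, hb'⟩, ⟨hw, h.e0, h.e1, h.e2, h.e3, y0, x1, y2, x3, ?_⟩, rfl⟩
  · intro j; fin_cases j
    · exact h0
    · exact h1
    · exact h2
    · exact h3
  · intro j; fin_cases j
    · exact g0
    · exact g1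
    · exact g2
    · exact g3
  · rw [Fin.sum_univ_four]
    exact hs
  · intro j; fin_cases j
    · exact ⟨h.p0.le, h.l0⟩
    · exact ⟨h.p1.le, h.l1⟩
    · exact ⟨h.p2.le, h.l2⟩
    · exact ⟨h.p3.le, h.l3⟩
  · exact h.hl F F_roc (hF _ h0) (hF _ h1) (hF _ h2) (hF _ h3)

theorem cvx_shift_abs (a b : ℝ) : ConvexOn ℝ Set.univ (fun x : ℝ => |a * x + b|) := by
  have := cvx_max (cvx_affine a b) (cvx_aff' (-a) (-b) (f := fun x : ℝ => -(a * x + b))
    (by intro x; ring))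
  exact this

/-- alternating configurations: `P0P1`, `P2P3` horizontal, `P1P2`, `P3P0` vertical -/
theorem alternating {S : Set V} {A0 A1 A2 A3 P0 P1 P2 P3 p : V} {s0 s1 s2 s3 : ℝ}
    (h : Cyc A0 A1 A2 A3 P0 P1 P2 P3 s0 s1 s2 s3) (hp : Hl A0 A1 A2 A3 p)
    (h0 : A0 ∈ S) (h1 : A1 ∈ S) (h2 : A2 ∈ S) (h3 : A3 ∈ S) (hF : ∀ p ∈ S, F p ≤ 0)
    (hy0 : A0.2.1 = P0.2.1) (hx1 : A1.1 = P1.1) (hy2 : A2.2.1 = P2.2.1) (hx3 : A3.1 = P3.1) :
    p ∈ Sg (Sg (Sg S)) ∨ p ∈ Sg (S ∪ W S) := by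
  have mw := fun {a b : ℝ} => mem_W h h0 h1 h2 h3 hF hy0 hx1 hy2 hx3 (a := a) (b := b)
  have mP0 : P0 ∈ W S := by
    have := mw le_rfl zero_le_one le_rfl zero_le_one
    simpa using this
  have mP1 : P1 ∈ W S := by
    have := mw zero_le_one le_rfl le_rfl zero_le_one
    simpa using this
  have mP2 : P2 ∈ W S := by
    have := mw zero_le_one le_rfl zero_le_one le_rfl
    simpa using this
  have mP3 : P3 ∈ W S := by
    have := mw le_rfl zero_le_one zero_le_one le_rfl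
    simpa using this
  obtain ⟨A0x, A0y, A0z⟩ := A0
  obtain ⟨A1x, A1y, A1z⟩ := A1
  obtain ⟨A2x, A2y, A2z⟩ := A2
  obtain ⟨A3x, A3y, A3z⟩ := A3
  obtain ⟨x0, y0, z0⟩ := P0
  obtain ⟨x1, P1y, z1⟩ := P1
  obtain ⟨P2x, y1, z2⟩ := P2
  obtain ⟨P3x, P3y, z3⟩ := P3
  obtain ⟨x, y, z⟩ := p
  have e0 := h.e0
  have e1 := h.e1
  have e2 := h.e2
  have e3 := h.e3
  simp only [Prod.smul_mk, smul_eq_mul, Prod.mk_add_mk, Prod.mk.injEq] at e0 e1 e2 e3
  simp only at hy0 hx1 hy2 hx3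
  obtain ⟨e0x, e0y, e0z⟩ := e0
  obtain ⟨e1x, e1y, e1z⟩ := e1
  obtain ⟨e2x, e2y, e2z⟩ := e2
  obtain ⟨e3x, e3y, e3z⟩ := e3
  subst hy0
  subst hx1
  subst hy2
  subst hx3
  have e0y' : P1y = A0y := by rw [e0y]; ring
  have e1x' : P2x = A1x := by rw [e1x]; ring
  have e2y' : P3y = A2y := by rw [e2y]; ring
  have e3x' : x0 = A3x := by rw [e3x]; ring
  subst e0y'
  subst e1x'
  subst e2y'
  subst e3x'
  -- names: x0, x1 := P2x ; y0 := P1y, y1 := P3y
  have q0 := h.p0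
  have q1 := h.p1
  have q2 := h.p2
  have q3 := h.p3
  have l0 := h.l0
  have l1 := h.l1
  have l2 := h.l2
  have l3 := h.l3
  by_cases hu : P2x = x0
  · left
    have g0 : A0x = x0 := by
      have : s0 * (A0x - x0) = 0 := by
        rw [hu] at e0x; linarith
      rcases mul_eq_zero.mp this with e | e
      · exact absurd e q0.ne'
      · linarith
    have g2 : A2x = x0 := by
      have : s2 * (A2x - x0) = 0 := by
        rw [hu] at e2x; linarith
      rcases mul_eq_zero.mp this with e | e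
      · exact absurd e q2.ne'
      · linarith
    exact planar h0 h1 h2 h3 hp (k := x0) (Or.inl ⟨g0, hu, g2, rfl⟩)
  by_cases hv : P3y = P1y
  · left
    have g1 : A1y = P1y := by
      have : s1 * (A1y - P1y) = 0 := by
        rw [hv] at e1y; linarith
      rcases mul_eq_zero.mp this with e | e
      · exact absurd e q1.ne'
      · linarith
    have g3 : A3y = P1y := by
      have : s3 * (A3y - P1y) = 0 := by
        rw [hv] at e3y; linarith
      rcases mul_eq_zero.mp this with e | e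
      · exact absurd e q3.ne'
      · linarith
    exact planar h0 h1 h2 h3 hp (k := P1y) (Or.inr ⟨rfl, g1, hv, g3⟩)
  right
  set u := P2x - x0 with hu'
  set v := P3y - P1y with hv'
  have hu0 : u ≠ 0 := sub_ne_zero.mpr hu
  have hv0 : v ≠ 0 := sub_ne_zero.mpr hv
  set a0 := 1 / s0 with ha0
  set a1 := 1 / s1 with ha1
  set a2 := 1 / s2 with ha2
  set a3 := 1 / s3 with ha3
  have b0 : 1 ≤ a0 := by rw [ha0, le_div_iff₀ q0]; linarith
  have b1 : 1 ≤ a1 := by rw [ha1, le_div_iff₀ q1]; linarith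
  have b2 : 1 ≤ a2 := by rw [ha2, le_div_iff₀ q2]; linarith
  have b3 : 1 ≤ a3 := by rw [ha3, le_div_iff₀ q3]; linarith
  have m0 : a0 * s0 = 1 := by rw [ha0]; field_simp
  have m1 : a1 * s1 = 1 := by rw [ha1]; field_simp
  have m2 : a2 * s2 = 1 := by rw [ha2]; field_simp
  have m3 : a3 * s3 = 1 := by rw [ha3]; field_simp
  -- coordinates of the corners
  have A0x' : A0x = x0 + a0 * u := by
    linear_combination (A0x - x0) * (-1) * m0 - a0 * e0x + a0 * hu'.symm
  have A0z' : A0z = z0 + a0 * (z1 - z0) := by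
    linear_combination (A0z - z0) * (-1) * m0 - a0 * e0z
  have A1y' : A1y = P1y + a1 * v := by
    linear_combination (A1y - P1y) * (-1) * m1 - a1 * e1y + a1 * hv'.symm
  have A1z' : A1z = z1 + a1 * (z2 - z1) := by
    linear_combination (A1z - z1) * (-1) * m1 - a1 * e1z
  have A2x' : A2x = P2x - a2 * u := by
    linear_combination (A2x - P2x) * (-1) * m2 - a2 * e2x - a2 * hu'.symm
  have A2z' : A2z = z2 + a2 * (z3 - z2) := by
    linear_combination (A2z - z2) * (-1) * m2 - a2 * e2z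
  have A3y' : A3y = P3y - a3 * v := by
    linear_combination (A3y - P3y) * (-1) * m3 - a3 * e3y - a3 * hv'.symm
  have A3z' : A3z = z3 + a3 * (z0 - z3) := by
    linear_combination (A3z - z3) * (-1) * m3 - a3 * e3z
  have hP2 : P2x = x0 + u := by rw [hu']; ring
  have hP3 : P3y = P1y + v := by rw [hv']; ring
  set i := 1 / u with hi
  set j := 1 / v with hj
  have hiu : u * i = 1 := by rw [hi]; field_simp
  have hjv : v * j = 1 := by rw [hj]; field_simp
  set X := (x - x0) * i with hX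
  set Y := (y - P1y) * j with hY
  have hxX : x = x0 + X * u := by
    linear_combination (-1) * u * hX.symm - (x - x0) * hiu
  have hyY : y = P1y + Y * v := by
    linear_combination (-1) * v * hY.symm - (y - P1y) * hjv
  -- test functions
  have t1 : max (X - 1) 0 * |Y| ≤ 0 := by
    have r := roc_prod (g := fun x => max ((x - x0) * i - 1) 0) (h := fun y => |(y - P1y) * j|)
      (cvx_max (cvx_aff' i (-x0 * i - 1) (by intro t; ring)) (convexOn_const _ convex_univ))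
      (by
        have := cvx_shift_abs j (-P1y * j)
        convert this using 3
        ring)
      (fun _ => le_max_right _ _) (fun _ => abs_nonneg _)
    refine hp _ r ?_ ?_ ?_ ?_
    · simp
    · have : (P2x - x0) * i - 1 = 0 := by rw [hP2]; linarith
      simp only [this]; simp
    · have : (A2x - x0) * i - 1 = - a2 := by
        rw [A2x', hP2]; linear_combination (1 - a2) * hiu
      simp only [this]
      rw [max_eq_right (by linarith)]; simp
    · have : (x0 - x0) * i - 1 = - 1 := by ring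
      simp only [this]
      rw [max_eq_right (by linarith)]; simp
  have t2 : |X - 1| * max (Y - 1) 0 ≤ 0 := by
    have r := roc_prod (g := fun x => |(x - x0) * i - 1|) (h := fun y => max ((y - P1y) * j - 1) 0)
      (by
        have := cvx_shift_abs i (-x0 * i - 1)
        convert this using 3
        ring)
      (cvx_max (cvx_aff' j (-P1y * j - 1) (by intro t; ring)) (convexOn_const _ convex_univ))
      (fun _ => abs_nonneg _) (fun _ => le_max_right _ _)
    refine hp _ r ?_ ?_ ?_ ?_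
    · have : (P1y - P1y) * j - 1 = -1 := by ring
      simp only [this]
      rw [max_eq_right (by linarith)]; simp
    · have : (P2x - x0) * i - 1 = 0 := by rw [hP2]; linarith
      simp only [this]; simp
    · have : (P3y - P1y) * j - 1 = 0 := by rw [hP3]; linarith
      simp only [this]; simp
    · have : (A3y - P1y) * j - 1 = - a3 := by
        rw [A3y', hP3]; linear_combination (1 - a3) * hjv
      simp only [this]
      rw [max_eq_right (by linarith)]; simp
  have t3 : max (-X) 0 * |Y - 1| ≤ 0 := by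
    have r := roc_prod (g := fun x => max (-((x - x0) * i)) 0)
      (h := fun y => |(y - P1y) * j - 1|)
      (cvx_max (cvx_aff' (-i) (x0 * i) (by intro t; ring)) (convexOn_const _ convex_univ))
      (by
        have := cvx_shift_abs j (-P1y * j - 1)
        convert this using 3
        ring)
      (fun _ => le_max_right _ _) (fun _ => abs_nonneg _)
    refine hp _ r ?_ ?_ ?_ ?_
    · have : -((A0x - x0) * i) = - a0 := by
        rw [A0x']; linear_combination (-a0) * hiu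
      simp only [this]
      rw [max_eq_right (by linarith)]; simp
    · have : -((P2x - x0) * i) = -1 := by rw [hP2]; linarith
      simp only [this]
      rw [max_eq_right (by linarith)]; simp
    · have : (P3y - P1y) * j - 1 = 0 := by rw [hP3]; linarith
      simp only [this]; simp
    · simp
  have t4 : |X| * max (-Y) 0 ≤ 0 := by
    have r := roc_prod (g := fun x => |(x - x0) * i|)
      (h := fun y => max (-((y - P1y) * j)) 0)
      (by
        have := cvx_shift_abs i (-x0 * i)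
        convert this using 3
        ring)
      (cvx_max (cvx_aff' (-j) (P1y * j) (by intro t; ring)) (convexOn_const _ convex_univ))
      (fun _ => abs_nonneg _) (fun _ => le_max_right _ _)
    refine hp _ r ?_ ?_ ?_ ?_
    · simp
    · have : -((A1y - P1y) * j) = - a1 := by
        rw [A1y']; linear_combination (-a1) * hjv
      simp only [this]
      rw [max_eq_right (by linarith)]; simp
    · have : -((P3y - P1y) * j) = -1 := by rw [hP3]; linarith
      simp only [this]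
      rw [max_eq_right (by linarith)]; simp
    · simp
  have aff : ∀ (c d e f g : ℝ), (c + d * ((A0x - x0) * i) + e * ((P1y - P1y) * j) +
        f * ((A0x - x0) * i) * ((P1y - P1y) * j) + g * A0z ≤ 0) →
      (c + d * ((P2x - x0) * i) + e * ((A1y - P1y) * j) +
        f * ((P2x - x0) * i) * ((A1y - P1y) * j) + g * A1z ≤ 0) →
      (c + d * ((A2x - x0) * i) + e * ((P3y - P1y) * j) +
        f * ((A2x - x0) * i) * ((P3y - P1y) * j) + g * A2z ≤ 0) →
      (c + d * ((x0 - x0) * i) + e * ((A3y - P1y) * j) +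
        f * ((x0 - x0) * i) * ((A3y - P1y) * j) + g * A3z ≤ 0) →
      c + d * X + e * Y + f * X * Y + g * z ≤ 0 := by
    intro c d e f g k0 k1 k2 k3
    have r := roc_of_sep (fun x y => c + d * ((x - x0) * i) + e * ((y - P1y) * j) +
        f * ((x - x0) * i) * ((y - P1y) * j)) g
      (fun y => cvx_aff' (d * i + f * i * ((y - P1y) * j))
        (c - d * x0 * i + e * ((y - P1y) * j) - f * x0 * i * ((y - P1y) * j))
        (by intro t; ring))
      (fun x => cvx_aff' (e * j + f * ((x - x0) * i) * j)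
        (c + d * ((x - x0) * i) - e * P1y * j - f * ((x - x0) * i) * P1y * j)
        (by intro t; ring))
    exact hp _ r k0 k1 k2 k3
  -- normalized coordinates of the corners
  have nX0 : (A0x - x0) * i = a0 := by rw [A0x']; linear_combination a0 * hiu
  have nY0 : (P1y - P1y) * j = 0 := by ring
  have nX1 : (P2x - x0) * i = 1 := by rw [hP2]; linarith
  have nY1 : (A1y - P1y) * j = a1 := by rw [A1y']; linear_combination a1 * hjv
  have nX2 : (A2x - x0) * i = 1 - a2 := by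
    rw [A2x', hP2]; linear_combination (1 - a2) * hiu
  have nY2 : (P3y - P1y) * j = 1 := by rw [hP3]; linarith
  have nX3 : (x0 - x0) * i = 0 := by ring
  have nY3 : (A3y - P1y) * j = 1 - a3 := by
    rw [A3y', hP3]; linear_combination (1 - a3) * hjv
  rw [nX0, nY0, nX1, nY1, nX2, nY2, nX3, nY3, A0z', A1z', A2z', A3z'] at aff
  have up0 : X ≤ a0 := by
    have := aff (-a0) 1 0 0 0 (by linarith) (by linarith) (by linarith) (by linarith)
    linarith
  have up1 : Y ≤ a1 := by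
    have := aff (-a1) 0 1 0 0 (by linarith) (by linarith) (by linarith) (by linarith)
    linarith
  have up2 : 1 - X ≤ a2 := by
    have := aff (1 - a2) (-1) 0 0 0 (by linarith) (by linarith) (by linarith) (by linarith)
    linarith
  have up3 : 1 - Y ≤ a3 := by
    have := aff (1 - a3) 0 (-1) 0 0 (by linarith) (by linarith) (by linarith) (by linarith)
    linarith
  have hz : z = (1 - X) * (1 - Y) * z0 + X * (1 - Y) * z1 + X * Y * z2 + (1 - X) * Y * z3 := by
    apply le_antisymm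
    · have := aff (-z0) (z0 - z1) (z0 - z3) (-(z0 - z1 + z2 - z3)) 1
        (le_of_eq (by ring)) (le_of_eq (by ring)) (le_of_eq (by ring)) (le_of_eq (by ring))
      linarith
    · have := aff (z0) (-(z0 - z1)) (-(z0 - z3)) (z0 - z1 + z2 - z3) (-1)
        (le_of_eq (by ring)) (le_of_eq (by ring)) (le_of_eq (by ring)) (le_of_eq (by ring))
      linarith
  -- the cases
  by_cases c1 : 1 < X
  · have hY0 : Y = 0 := by
      rw [max_eq_left (by linarith)] at t1
      have : 0 ≤ (X - 1) * |Y| := mul_nonneg (by linarith) (abs_nonneg _)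
      rcases mul_eq_zero.mp (le_antisymm t1 this) with e | e
      · linarith
      · exact abs_eq_zero.mp e
    refine ⟨(x0, P1y, z0), Or.inr mP0, (A0x, P1y, A0z), Or.inl h0, Or.inr rfl, X * s0,
      by positivity, ?_, ?_⟩
    · calc X * s0 ≤ a0 * s0 := mul_le_mul_of_nonneg_right up0 q0.le
        _ = 1 := m0
    · simp only [Prod.smul_mk, smul_eq_mul, Prod.mk_add_mk, Prod.mk.injEq]
      refine ⟨?_, ?_, ?_⟩
      · rw [hxX, A0x']; linear_combination (-X * u) * m0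
      · rw [hyY, hY0]; ring
      · rw [hz, hY0, A0z']; linear_combination (-X * (z1 - z0)) * m0
  by_cases c2 : 1 < Y
  · have hX1 : X = 1 := by
      rw [max_eq_left (by linarith)] at t2
      have : 0 ≤ |X - 1| * (Y - 1) := mul_nonneg (abs_nonneg _) (by linarith)
      rcases mul_eq_zero.mp (le_antisymm t2 this) with e | e
      · linarith [abs_eq_zero.mp e]
      · linarith
    refine ⟨(P2x, P1y, z1), Or.inr mP1, (P2x, A1y, A1z), Or.inl h1, Or.inl rfl, Y * s1,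
      by positivity, ?_, ?_⟩
    · calc Y * s1 ≤ a1 * s1 := mul_le_mul_of_nonneg_right up1 q1.le
        _ = 1 := m1
    · simp only [Prod.smul_mk, smul_eq_mul, Prod.mk_add_mk, Prod.mk.injEq]
      refine ⟨?_, ?_, ?_⟩
      · rw [hxX, hX1, hP2]; ring
      · rw [hyY, A1y']; linear_combination (-Y * v) * m1
      · rw [hz, hX1, A1z']; linear_combination (-Y * (z2 - z1)) * m1
  by_cases c3 : X < 0
  · have hY1 : Y = 1 := by
      rw [max_eq_left (by linarith)] at t3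
      have : 0 ≤ (-X) * |Y - 1| := mul_nonneg (by linarith) (abs_nonneg _)
      rcases mul_eq_zero.mp (le_antisymm t3 this) with e | e
      · linarith
      · linarith [abs_eq_zero.mp e]
    refine ⟨(P2x, P3y, z2), Or.inr mP2, (A2x, P3y, A2z), Or.inl h2, Or.inr rfl, (1 - X) * s2,
      mul_nonneg (by linarith) q2.le, ?_, ?_⟩
    · calc (1 - X) * s2 ≤ a2 * s2 := mul_le_mul_of_nonneg_right up2 q2.le
        _ = 1 := m2
    · simp only [Prod.smul_mk, smul_eq_mul, Prod.mk_add_mk, Prod.mk.injEq]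
      refine ⟨?_, ?_, ?_⟩
      · rw [hxX, A2x', hP2]; linear_combination ((1 - X) * u) * m2
      · rw [hyY, hY1, hP3]; ring
      · rw [hz, hY1, A2z']; linear_combination (-(1 - X) * (z3 - z2)) * m2
  by_cases c4 : Y < 0
  · have hX0 : X = 0 := by
      rw [max_eq_left (by linarith)] at t4
      have : 0 ≤ |X| * (-Y) := mul_nonneg (abs_nonneg _) (by linarith)
      rcases mul_eq_zero.mp (le_antisymm t4 this) with e | e
      · exact abs_eq_zero.mp e
      · linarith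
    refine ⟨(x0, P3y, z3), Or.inr mP3, (x0, A3y, A3z), Or.inl h3, Or.inl rfl, (1 - Y) * s3,
      mul_nonneg (by linarith) q3.le, ?_, ?_⟩
    · calc (1 - Y) * s3 ≤ a3 * s3 := mul_le_mul_of_nonneg_right up3 q3.le
        _ = 1 := m3
    · simp only [Prod.smul_mk, smul_eq_mul, Prod.mk_add_mk, Prod.mk.injEq]
      refine ⟨?_, ?_, ?_⟩
      · rw [hxX, hX0]; ring
      · rw [hyY, A3y', hP3]; linear_combination ((1 - Y) * v) * m3
      · rw [hz, hX0, A3z']; linear_combination (-(1 - Y) * (z0 - z3)) * m3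
  · apply subset_Sg
    right
    have := mw (a := X) (b := Y) (by linarith) (by linarith) (by linarith) (by linarith)
    convert this using 1
    simp only [Prod.smul_mk, smul_eq_mul, Prod.mk_add_mk, Prod.mk.injEq]
    refine ⟨?_, ?_, ?_⟩
    · rw [hxX, hP2]; ring
    · rw [hyY, hP3]; ring
    · rw [hz]; ring

/-- the hull of a `T4` configuration in `S` lies in the enlarged set -/
theorem t4_hull {S : Set V} (hF : ∀ p ∈ S, F p ≤ 0) {A : Fin 4 → V} (hA : ∀ j, A j ∈ S)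
    (hT : IsT4 A) {p : V} (hp : Hl (A 0) (A 1) (A 2) (A 3) p) :
    p ∈ Sg (Sg (Sg S)) ∨ p ∈ Sg (S ∪ W S) := by
  obtain ⟨P0, P1, P2, P3, s0, s1, s2, s3, h⟩ := exists_cyc hT
  -- consequences of the types
  have hx : ∀ {P A' P' : V} {s : ℝ}, P' = (1 - s) • P + s • A' → P.1 = A'.1 → P'.1 = P.1 := by
    intro P A' P' s e e'
    rw [e]
    simp only [Prod.fst_add, Prod.smul_fst, smul_eq_mul]
    rw [← e']; ring
  have hy : ∀ {P A' P' : V} {s : ℝ}, P' = (1 - s) • P + s • A' → P.2.1 = A'.2.1 →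
      P'.2.1 = P.2.1 := by
    intro P A' P' s e e'
    rw [e]
    simp only [Prod.fst_add, Prod.snd_add, Prod.smul_fst, Prod.smul_snd, smul_eq_mul]
    rw [← e']; ring
  have hx' : ∀ {P A' P' : V} {s : ℝ}, 0 < s → P' = (1 - s) • P + s • A' → P'.1 = P.1 →
      A'.1 = P.1 := by
    intro P A' P' s hs e e'
    rw [e] at e'
    simp only [Prod.fst_add, Prod.smul_fst, smul_eq_mul] at e'
    have : s * (A'.1 - P.1) = 0 := by linarith
    rcases mul_eq_zero.mp this with k | k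
    · exact absurd k hs.ne'
    · linarith
  have hy' : ∀ {P A' P' : V} {s : ℝ}, 0 < s → P' = (1 - s) • P + s • A' → P'.2.1 = P.2.1 →
      A'.2.1 = P.2.1 := by
    intro P A' P' s hs e e'
    rw [e] at e'
    simp only [Prod.fst_add, Prod.snd_add, Prod.smul_fst, Prod.smul_snd, smul_eq_mul] at e'
    have : s * (A'.2.1 - P.2.1) = 0 := by linarith
    rcases mul_eq_zero.mp this with k | k
    · exact absurd k hs.ne'
    · linarith
  have rx : ∀ {B0 B1 B2 B3 Q0 Q1 Q2 Q3 : V} {t0 t1 t2 t3 : ℝ},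
      Cyc B0 B1 B2 B3 Q0 Q1 Q2 Q3 t0 t1 t2 t3 → Q0.1 = B0.1 → Q1.1 = B1.1 → Q2.1 = B2.1 →
      B0.1 = Q0.1 ∧ B1.1 = Q0.1 ∧ B2.1 = Q0.1 ∧ B3.1 = Q0.1 := by
    intro B0 B1 B2 B3 Q0 Q1 Q2 Q3 t0 t1 t2 t3 g k0 k1 k2
    have r1 := hx g.e0 k0
    have r2 := hx g.e1 k1
    have r3 := hx g.e2 k2
    have r4 := hx' g.p3 g.e3 (by rw [r3, r2, r1])
    refine ⟨k0.symm, by rw [← k1, r1], by rw [← k2, r2, r1], by rw [r4, r3, r2, r1]⟩
  have ry : ∀ {B0 B1 B2 B3 Q0 Q1 Q2 Q3 : V} {t0 t1 t2 t3 : ℝ},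
      Cyc B0 B1 B2 B3 Q0 Q1 Q2 Q3 t0 t1 t2 t3 → Q0.2.1 = B0.2.1 → Q1.2.1 = B1.2.1 →
      Q2.2.1 = B2.2.1 →
      B0.2.1 = Q0.2.1 ∧ B1.2.1 = Q0.2.1 ∧ B2.2.1 = Q0.2.1 ∧ B3.2.1 = Q0.2.1 := by
    intro B0 B1 B2 B3 Q0 Q1 Q2 Q3 t0 t1 t2 t3 g k0 k1 k2
    have r1 := hy g.e0 k0
    have r2 := hy g.e1 k1
    have r3 := hy g.e2 k2
    have r4 := hy' g.p3 g.e3 (by rw [r3, r2, r1])
    refine ⟨k0.symm, by rw [← k1, r1], by rw [← k2, r2, r1], by rw [r4, r3, r2, r1]⟩
  have mA0 := hA 0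
  have mA1 := hA 1
  have mA2 := hA 2
  have mA3 := hA 3
  -- three consecutive of the same type
  have plx : ∀ {B0 B1 B2 B3 Q0 Q1 Q2 Q3 : V} {t0 t1 t2 t3 : ℝ},
      Cyc B0 B1 B2 B3 Q0 Q1 Q2 Q3 t0 t1 t2 t3 → B0 ∈ S → B1 ∈ S → B2 ∈ S → B3 ∈ S →
      Hl B0 B1 B2 B3 p → Q0.1 = B0.1 → Q1.1 = B1.1 → Q2.1 = B2.1 → p ∈ Sg (Sg (Sg S)) := by
    intro B0 B1 B2 B3 Q0 Q1 Q2 Q3 t0 t1 t2 t3 g n0 n1 n2 n3 hq k0 k1 k2
    exact planar n0 n1 n2 n3 hq (Or.inl (rx g k0 k1 k2))
  have ply : ∀ {B0 B1 B2 B3 Q0 Q1 Q2 Q3 : V} {t0 t1 t2 t3 : ℝ},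
      Cyc B0 B1 B2 B3 Q0 Q1 Q2 Q3 t0 t1 t2 t3 → B0 ∈ S → B1 ∈ S → B2 ∈ S → B3 ∈ S →
      Hl B0 B1 B2 B3 p → Q0.2.1 = B0.2.1 → Q1.2.1 = B1.2.1 → Q2.2.1 = B2.2.1 →
      p ∈ Sg (Sg (Sg S)) := by
    intro B0 B1 B2 B3 Q0 Q1 Q2 Q3 t0 t1 t2 t3 g n0 n1 n2 n3 hq k0 k1 k2
    exact planar n0 n1 n2 n3 hq (Or.inr (ry g k0 k1 k2))
  -- two adjacent horizontal, then two adjacent vertical
  have crs : ∀ {B0 B1 B2 B3 Q0 Q1 Q2 Q3 : V} {t0 t1 t2 t3 : ℝ},
      Cyc B0 B1 B2 B3 Q0 Q1 Q2 Q3 t0 t1 t2 t3 → B0 ∈ S → B1 ∈ S → B2 ∈ S → B3 ∈ S →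
      Hl B0 B1 B2 B3 p → Q0.2.1 = B0.2.1 → Q1.2.1 = B1.2.1 → Q2.1 = B2.1 → Q3.1 = B3.1 →
      p ∈ Sg (Sg (Sg S)) := by
    intro B0 B1 B2 B3 Q0 Q1 Q2 Q3 t0 t1 t2 t3 g n0 n1 n2 n3 hq k0 k1 k2 k3
    have r1 := hy g.e0 k0
    have r3 := hx g.e2 k2
    exact cross n0 n1 n2 n3 hq k0.symm (by rw [← k1, r1]) k2.symm (by rw [← k3, r3])
  have g0 := h
  have g1 := h.rot
  have g2 := h.rot.rot
  have g3 := h.rot.rot.rot
  have hp1 := hp.rot
  have hp2 := hp.rot.rot
  have hp3 := hp.rot.rot.rot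
  rcases h.c0 with t0 | t0 <;> rcases h.c1 with t1 | t1 <;> rcases h.c2 with t2 | t2 <;>
    rcases h.c3 with t3 | t3
  · exact Or.inl (plx g0 mA0 mA1 mA2 mA3 hp t0 t1 t2)
  · exact Or.inl (plx g0 mA0 mA1 mA2 mA3 hp t0 t1 t2)
  · exact Or.inl (plx g3 mA3 mA0 mA1 mA2 hp3 t3 t0 t1)
  · -- x x y y : rotate by two
    exact Or.inl (crs g2 mA2 mA3 mA0 mA1 hp2 t2 t3 t0 t1)
  · exact Or.inl (plx g2 mA2 mA3 mA0 mA1 hp2 t2 t3 t0)
  · -- x y x y : rotate by one
    have := alternating g1 hp1 mA1 mA2 mA3 mA0 hF t1.symm t2.symm t3.symm t0.symm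
    exact this
  · -- x y y x
    exact Or.inl (crs g1 mA1 mA2 mA3 mA0 hp1 t1 t2 t3 t0)
  · exact Or.inl (ply g1 mA1 mA2 mA3 mA0 hp1 t1 t2 t3)
  · exact Or.inl (plx g1 mA1 mA2 mA3 mA0 hp1 t1 t2 t3)
  · -- y x x y
    exact Or.inl (crs g3 mA3 mA0 mA1 mA2 hp3 t3 t0 t1 t2)
  · -- y x y x
    have := alternating g0 hp mA0 mA1 mA2 mA3 hF t0.symm t1.symm t2.symm t3.symm
    exact this
  · exact Or.inl (ply g2 mA2 mA3 mA0 mA1 hp2 t2 t3 t0)
  · -- y y x x
    exact Or.inl (crs g0 mA0 mA1 mA2 mA3 hp t0 t1 t2 t3)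
  · exact Or.inl (ply g3 mA3 mA0 mA1 mA2 hp3 t3 t0 t1)
  · exact Or.inl (ply g0 mA0 mA1 mA2 mA3 hp t0 t1 t2)
  · exact Or.inl (ply g0 mA0 mA1 mA2 mA3 hp t0 t1 t2)

end Pool.Agent.R783.T4
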