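import Pool.Agent.R783.T4.Good

/-!
# The hull of a `T4` configuration
-/

namespace Pool.Agent.R783.T4

open Set

structure Cyc (A0 A1 A2 A3 P0 P1 P2 P3 : V) (s0 s1 s2 s3 : ℝ) : Prop where
  p0 : 0 < s0
  p1 : 0 < s1
  p2 : 0 < s2
  p3 : 0 < s3
  l0 : s0 ≤ 1
  l1 : s1 ≤ 1
  l2 : s2 ≤ 1
  l3 : s3 ≤ 1
  e0 : P1 = (1 - s0) • P0 + s0 • A0
  e1 : P2 = (1 - s1) • P1 + s1 • A1
  e2 : P3 = (1 - s2) • P2 + s2 • A2
  e3 : P0 = (1 - s3) • P3 + s3 • A3
  c0 : Conn P0 A0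
  c1 : Conn P1 A1
  c2 : Conn P2 A2
  c3 : Conn P3 A3

theorem Cyc.rot {A0 A1 A2 A3 P0 P1 P2 P3 : V} {s0 s1 s2 s3 : ℝ}
    (h : Cyc A0 A1 A2 A3 P0 P1 P2 P3 s0 s1 s2 s3) :
    Cyc A1 A2 A3 A0 P1 P2 P3 P0 s1 s2 s3 s0 :=
  ⟨h.p1, h.p2, h.p3, h.p0, h.l1, h.l2, h.l3, h.l0, h.e1, h.e2, h.e3, h.e0, h.c1, h.c2, h.c3,
    h.c0⟩

/-- the inner points lie in the hull -/
theorem Cyc.hl {A0 A1 A2 A3 P0 P1 P2 P3 : V} {s0 s1 s2 s3 : ℝ}
    (h : Cyc A0 A1 A2 A3 P0 P1 P2 P3 s0 s1 s2 s3) : Hl A0 A1 A2 A3 P0 := by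
  intro f hf h0 h1 h2 h3
  have one : ∀ {P A P' : V} {s : ℝ}, 0 < s → s ≤ 1 → P' = (1 - s) • P + s • A → Conn P A →
      f A ≤ 0 → 0 < f P' → f P' < f P := by
    intro P A P' s hs hs1 hP hc hA hpos
    have g := roc_ineq hf hc hs.le hs1
    rw [← hP] at g
    have g1 : s * f A ≤ 0 := mul_nonpos_of_nonneg_of_nonpos hs.le hA
    have g2 : 0 < (1 - s) * f P := by linarith
    have g3 : 0 < f P := by
      by_contra hh
      have : (1 - s) * f P ≤ 0 := mul_nonpos_of_nonneg_of_nonpos (by linarith) (by linarith)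
      linarith
    have g4 : 0 < s * f P := mul_pos hs g3
    linarith
  by_contra hh
  have hh : 0 < f P0 := by linarith
  have k3 := one h.p3 h.l3 h.e3 h.c3 h3 hh
  have k2 := one h.p2 h.l2 h.e2 h.c2 h2 (by linarith)
  have k1 := one h.p1 h.l1 h.e1 h.c1 h1 (by linarith)
  have k0 := one h.p0 h.l0 h.e0 h.c0 h0 (by linarith)
  linarith

theorem exists_cyc {A : Fin 4 → V} (h : IsT4 A) :
    ∃ (P0 P1 P2 P3 : V) (s0 s1 s2 s3 : ℝ),
      Cyc (A 0) (A 1) (A 2) (A 3) P0 P1 P2 P3 s0 s1 s2 s3 := by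
  obtain ⟨P, C, α, hC, hsum, hα, hA⟩ := h
  rw [Fin.sum_univ_four] at hsum
  have hA0 : A 0 = P + α 0 • C 0 := by
    rw [hA 0]
    simp
  have hA1 : A 1 = P + C 0 + α 1 • C 1 := by
    rw [hA 1]
    rw [show Finset.univ.filter (fun i : Fin 4 => i < 1) = {0} by decide]
    simp
  have hA2 : A 2 = P + C 0 + C 1 + α 2 • C 2 := by
    rw [hA 2]
    rw [show Finset.univ.filter (fun i : Fin 4 => i < 2) = {0, 1} by decide]
    rw [Finset.sum_pair (by decide)]
    abel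
  have hA3 : A 3 = P + C 0 + C 1 + C 2 + α 3 • C 3 := by
    rw [hA 3]
    rw [show Finset.univ.filter (fun i : Fin 4 => i < 3) = {0, 1, 2} by decide]
    rw [Finset.sum_insert (by decide), Finset.sum_pair (by decide)]
    abel
  have key : ∀ (Q C' : V) (a : ℝ), 1 ≤ a → Q + C' = (1 - 1 / a) • Q + (1 / a) • (Q + a • C') := by
    intro Q C' a ha
    have ha0 : a ≠ 0 := by linarith
    rw [smul_add, smul_smul, one_div, inv_mul_cancel₀ ha0, sub_smul, one_smul, one_smul]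
    abel
  have conn : ∀ (Q C' : V) (a : ℝ), RankOneDir C' → Conn Q (Q + a • C') := by
    intro Q C' a hC'
    rcases mul_eq_zero.mp hC'.2 with h | h
    · left; simp [h]
    · right; simp [h]
  have pos : ∀ a : ℝ, 1 ≤ a → 0 < 1 / a := fun a ha => by
    have : 0 < a := by linarith
    positivity
  have le1 : ∀ a : ℝ, 1 ≤ a → 1 / a ≤ 1 := fun a ha => by
    rw [div_le_one (by linarith)]; exact ha
  refine ⟨P, P + C 0, P + C 0 + C 1, P + C 0 + C 1 + C 2, 1 / α 0, 1 / α 1, 1 / α 2, 1 / α 3,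
    ⟨pos _ (hα 0), pos _ (hα 1), pos _ (hα 2), pos _ (hα 3), le1 _ (hα 0), le1 _ (hα 1),
     le1 _ (hα 2), le1 _ (hα 3), ?_, ?_, ?_, ?_, ?_, ?_, ?_, ?_⟩⟩
  · rw [hA0]; exact key _ _ _ (hα 0)
  · rw [hA1]; exact key _ _ _ (hα 1)
  · rw [hA2]; exact key _ _ _ (hα 2)
  · rw [hA3, ← key _ _ _ (hα 3)]
    rw [add_assoc, add_assoc, add_assoc, ← add_assoc (C 0), ← add_assoc (C 0 + C 1), hsum]
    simp
  · rw [hA0]; exact conn _ _ _ (hC 0)
  · rw [hA1]; exact conn _ _ _ (hC 1)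
  · rw [hA2]; exact conn _ _ _ (hC 2)
  · rw [hA3]; exact conn _ _ _ (hC 3)

theorem pair {T : Set V} {A B : V} (hA : A ∈ T) (hB : B ∈ T) (hc : Conn A B) {m n : ℝ}
    (hm : 0 ≤ m) (hn : 0 ≤ n) : ∃ Q ∈ Sg T, (m + n) • Q = m • A + n • B ∧
      (A.1 = B.1 → Q.1 = A.1) ∧ (A.2.1 = B.2.1 → Q.2.1 = A.2.1) := by
  rcases eq_or_lt_of_le (add_nonneg hm hn) with h | h
  · have m0 : m = 0 := by linarith
    have n0 : n = 0 := by linarith
    exact ⟨A, subset_Sg T hA, by rw [m0, n0]; simp, fun _ => rfl, fun _ => rfl⟩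
  · have hne : m + n ≠ 0 := h.ne'
    refine ⟨(1 - n / (m + n)) • A + (n / (m + n)) • B, ⟨A, hA, B, hB, hc, n / (m + n),
      by positivity, by rw [div_le_one h]; linarith, rfl⟩, ?_, ?_, ?_⟩
    · rw [smul_add, smul_smul, smul_smul, mul_div_cancel₀ _ hne]
      congr 2
      field_simp
      ring
    · intro h'
      simp only [Prod.fst_add, Prod.smul_fst, smul_eq_mul]
      rw [h']; ring
    · intro h'
      simp only [Prod.fst_add, Prod.snd_add, Prod.smul_fst, Prod.smul_snd, smul_eq_mul]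
      rw [h']; ring

theorem conn_of {A B : V} {c : ℝ} (h : (A.1 = c ∧ B.1 = c) ∨ (A.2.1 = c ∧ B.2.1 = c)) :
    Conn A B := by
  rcases h with h | h
  · exact Or.inl (h.1.trans h.2.symm)
  · exact Or.inr (h.1.trans h.2.symm)

theorem planar {S : Set V} {a b c d p : V} (ha : a ∈ S) (hb : b ∈ S) (hc : c ∈ S) (hd : d ∈ S)
    (hp : Hl a b c d p) {k : ℝ}
    (h : (a.1 = k ∧ b.1 = k ∧ c.1 = k ∧ d.1 = k) ∨
      (a.2.1 = k ∧ b.2.1 = k ∧ c.2.1 = k ∧ d.2.1 = k)) : p ∈ Sg (Sg (Sg S)) := by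
  obtain ⟨w0, w1, w2, w3, h0, h1, h2, h3, hs, rfl⟩ := hp.weights
  have ccd : Conn c d := conn_of (c := k) (h.imp (fun h => ⟨h.2.2.1, h.2.2.2⟩)
    (fun h => ⟨h.2.2.1, h.2.2.2⟩))
  obtain ⟨Q, hQ, eQ, Qx, Qy⟩ := pair hc hd ccd h2 h3
  have hQ' : (b.1 = k ∧ Q.1 = k) ∨ (b.2.1 = k ∧ Q.2.1 = k) := by
    rcases h with h | h
    · left; exact ⟨h.2.1, (Qx (h.2.2.1.trans h.2.2.2.symm)).trans h.2.2.1⟩
    · right; exact ⟨h.2.1, (Qy (h.2.2.1.trans h.2.2.2.symm)).trans h.2.2.1⟩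
  obtain ⟨R, hR, eR, Rx, Ry⟩ := pair (subset_Sg S hb) hQ (conn_of hQ') h1 (add_nonneg h2 h3)
  have hR' : (a.1 = k ∧ R.1 = k) ∨ (a.2.1 = k ∧ R.2.1 = k) := by
    rcases h with h | h
    · left
      have hq : Q.1 = k := (Qx (h.2.2.1.trans h.2.2.2.symm)).trans h.2.2.1
      exact ⟨h.1, (Rx (h.2.1.trans hq.symm)).trans h.2.1⟩
    · right
      have hq : Q.2.1 = k := (Qy (h.2.2.1.trans h.2.2.2.symm)).trans h.2.2.1
      exact ⟨h.1, (Ry (h.2.1.trans hq.symm)).trans h.2.1⟩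
  obtain ⟨U, hU, eU, -, -⟩ := pair (subset_Sg _ (subset_Sg S ha)) hR (conn_of hR') h0
    (add_nonneg h1 (add_nonneg h2 h3))
  have : w0 • a + w1 • b + w2 • c + w3 • d = U := by
    have h1' : w0 + (w1 + (w2 + w3)) = 1 := by linarith
    rw [h1', one_smul, eR, eQ] at eU
    rw [eU]; abel
  rw [this]; exact hU

theorem roc_prod {g h : ℝ → ℝ} (hg : ConvexOn ℝ Set.univ g) (hh : ConvexOn ℝ Set.univ h)
    (g0 : ∀ x, 0 ≤ g x) (h0 : ∀ x, 0 ≤ h x) : RankOneConvex (fun p => g p.1 * h p.2.1) := by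
  have := roc_of_sep (fun x y => g x * h y) 0 ?_ ?_
  · simpa using this
  · intro y
    have := cvx_smul (h0 y) hg
    simpa [mul_comm] using this
  · intro x
    exact cvx_smul (g0 x) hh

/-- the hull of four points, two in a plane `y = y0` and two in a plane `x = x0` -/
theorem cross {S : Set V} {a b c d p : V} (ha : a ∈ S) (hb : b ∈ S) (hc : c ∈ S) (hd : d ∈ S)
    (hp : Hl a b c d p) {x0 y0 : ℝ} (ay : a.2.1 = y0) (yb : b.2.1 = y0)
    (cx : c.1 = x0) (dx : d.1 = x0) : p ∈ Sg (Sg (Sg S)) := by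
  have hroc := roc_prod (cvx_abs_sub x0) (cvx_abs_sub y0) (fun _ => abs_nonneg _)
    (fun _ => abs_nonneg _)
  have h1 := hp _ hroc (by rw [ay]; simp) (by rw [yb]; simp) (by rw [cx]; simp)
    (by rw [dx]; simp)
  have h2 : |p.1 - x0| * |p.2.1 - y0| = 0 :=
    le_antisymm h1 (mul_nonneg (abs_nonneg _) (abs_nonneg _))
  obtain ⟨w0, w1, w2, w3, g0, g1, g2, g3, hs, hw⟩ := hp.weights
  have cab : Conn a b := Or.inr (ay.trans yb.symm)
  have ccd : Conn c d := Or.inl (cx.trans dx.symm)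
  rcases mul_eq_zero.mp h2 with h | h
  · -- p in the plane x = x0
    have hx : p.1 = x0 := by
      have := abs_eq_zero.mp h
      linarith
    obtain ⟨Q, hQ, eQ, -, Qy⟩ := pair ha hb cab g0 g1
    have ex : p.1 = (w0 + w1) * Q.1 + (w2 + w3) * x0 := by
      have e := congrArg Prod.fst eQ
      simp only [Prod.fst_add, Prod.smul_fst, smul_eq_mul] at e
      rw [hw]
      simp only [Prod.fst_add, Prod.smul_fst, smul_eq_mul]
      rw [cx, dx]; linarith
    have : (w0 + w1) * (Q.1 - x0) = 0 := by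
      have : (w2 + w3) = 1 - (w0 + w1) := by linarith
      rw [hx, this] at ex
      linarith
    rcases mul_eq_zero.mp this with e | e
    · have e0 : w0 = 0 := by linarith
      have e1 : w1 = 0 := by linarith
      obtain ⟨R, hR, eR, -, -⟩ := pair hc hd ccd g2 g3
      have : p = R := by
        rw [hw, e0, e1]
        have : w2 + w3 = 1 := by linarith
        rw [this, one_smul] at eR
        rw [eR]; simp
      rw [this]
      exact subset_Sg _ (subset_Sg _ hR)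
    · have hq : Q.1 = x0 := by linarith
      obtain ⟨R, hR, eR, Rx, -⟩ := pair (subset_Sg S hd) hQ (Or.inl (dx.trans hq.symm)) g3
        (add_nonneg g0 g1)
      have hr : R.1 = x0 := (Rx (dx.trans hq.symm)).trans dx
      obtain ⟨U, hU, eU, -, -⟩ := pair (subset_Sg _ (subset_Sg S hc)) hR
        (Or.inl (cx.trans hr.symm)) g2 (add_nonneg g3 (add_nonneg g0 g1))
      have : p = U := by
        have h1' : w2 + (w3 + (w0 + w1)) = 1 := by linarith
        rw [h1', one_smul, eR, eQ] at eU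
        rw [eU, hw]; abel
      rw [this]; exact hU
  · have hy : p.2.1 = y0 := by
      have := abs_eq_zero.mp h
      linarith
    obtain ⟨Q, hQ, eQ, Qx, -⟩ := pair hc hd ccd g2 g3
    have ey : p.2.1 = (w2 + w3) * Q.2.1 + (w0 + w1) * y0 := by
      have e := congrArg (fun q : V => q.2.1) eQ
      simp only [Prod.fst_add, Prod.snd_add, Prod.smul_fst, Prod.smul_snd, smul_eq_mul] at e
      rw [hw]
      simp only [Prod.fst_add, Prod.snd_add, Prod.smul_fst, Prod.smul_snd, smul_eq_mul]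
      rw [ay, yb]; linarith
    have : (w2 + w3) * (Q.2.1 - y0) = 0 := by
      have : (w0 + w1) = 1 - (w2 + w3) := by linarith
      rw [hy, this] at ey
      linarith
    rcases mul_eq_zero.mp this with e | e
    · have e0 : w2 = 0 := by linarith
      have e1 : w3 = 0 := by linarith
      obtain ⟨R, hR, eR, -, -⟩ := pair ha hb cab g0 g1
      have : p = R := by
        rw [hw, e0, e1]
        have : w0 + w1 = 1 := by linarith
        rw [this, one_smul] at eR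
        rw [eR]; simp
      rw [this]
      exact subset_Sg _ (subset_Sg _ hR)
    · have hq : Q.2.1 = y0 := by linarith
      obtain ⟨R, hR, eR, -, Ry⟩ := pair (subset_Sg S hb) hQ (Or.inr (yb.trans hq.symm)) g1
        (add_nonneg g2 g3)
      have hr : R.2.1 = y0 := (Ry (yb.trans hq.symm)).trans yb
      obtain ⟨U, hU, eU, -, -⟩ := pair (subset_Sg _ (subset_Sg S ha)) hR
        (Or.inr (ay.trans hr.symm)) g0 (add_nonneg g1 (add_nonneg g2 g3))
      have : p = U := by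
        have h1' : w0 + (w1 + (w2 + w3)) = 1 := by linarith
        rw [h1', one_smul, eR, eQ] at eU
        rw [eU, hw]; abel
      rw [this]; exact hU

end Pool.Agent.R783.T4
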