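import Mathlib

/-!
# Upper triangular 2x2 matrices, rank-one convexity, T4 hulls: definitions
-/

namespace Pool.Agent.R783.T4

open Set

/-- The upper triangular matrix with rows `(x, z)` and `(0, y)`, written `(x, y, z)`. -/
abbrev V := ℝ × ℝ × ℝ

/-- `(u, v, w)` is a rank-one direction: it is nonzero and `u * v = 0`. -/
def RankOneDir (d : V) : Prop := d ≠ 0 ∧ d.1 * d.2.1 = 0

/-- `f` is convex on every line with a rank-one direction. -/
def RankOneConvex (f : V → ℝ) : Prop :=
  ∀ A D : V, RankOneDir D → ConvexOn ℝ Set.univ (fun t : ℝ => f (A + t • D))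

/-- The (possibly degenerate) `T4` configurations. -/
def IsT4 (A : Fin 4 → V) : Prop :=
  ∃ (P : V) (C : Fin 4 → V) (α : Fin 4 → ℝ),
    (∀ j, RankOneDir (C j)) ∧ ∑ j, C j = 0 ∧ (∀ j, 1 ≤ α j) ∧
    ∀ j, A j = P + (∑ i ∈ Finset.univ.filter (fun i => i < j), C i) + α j • C j

/-- One step of the iteration, for a given hull operation `H`: add `H {A_0, ..., A_3}` for all `T4`
configurations in `S`, and all rank-one segments with both end points in `S`. -/
def step (H : Set V → Set V) (S : Set V) : Set V :=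
  S ∪ {p | ∃ A : Fin 4 → V, (∀ j, A j ∈ S) ∧ IsT4 A ∧ p ∈ H (Set.range A)} ∪
    {p | ∃ A ∈ S, ∃ B ∈ S, RankOneDir (B - A) ∧ p ∈ segment ℝ A B}

/-- `K^(i)`. -/
def iter (H : Set V → Set V) (K : Set V) (i : ℕ) : Set V := (step H)^[i] K

/-! ## Tools -/

/-- the pairs that are equal or rank-one connected -/
def Conn (A B : V) : Prop := A.1 = B.1 ∨ A.2.1 = B.2.1

theorem Conn.symm {A B : V} (h : Conn A B) : Conn B A := h.imp Eq.symm Eq.symm

theorem roc_ineq {f : V → ℝ} (hf : RankOneConvex f) {A B : V} (h : Conn A B) {t : ℝ}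
    (h0 : 0 ≤ t) (h1 : t ≤ 1) : f ((1 - t) • A + t • B) ≤ (1 - t) * f A + t * f B := by
  by_cases hAB : A = B
  · subst hAB
    have : (1 - t) • A + t • A = A := by rw [← add_smul]; simp
    rw [this]
    exact le_of_eq (by ring)
  have hD : RankOneDir (B - A) := by
    refine ⟨sub_ne_zero.mpr (fun h => hAB h.symm), ?_⟩
    rcases h with h | h
    · simp [h]
    · simp [h]
  have := (hf A (B - A) hD).2 (mem_univ (0 : ℝ)) (mem_univ (1 : ℝ)) (sub_nonneg.mpr h1) h0
    (by ring)
  simp only [smul_eq_mul, mul_zero, mul_one, zero_add, zero_smul, add_zero, one_smul,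
    add_sub_cancel] at this
  have e : A + t • (B - A) = (1 - t) • A + t • B := by
    rw [smul_sub, sub_smul, one_smul]; abel
  rwa [e] at this

theorem roc_of_sep (g : ℝ → ℝ → ℝ) (c : ℝ)
    (h1 : ∀ y, ConvexOn ℝ Set.univ (fun x => g x y)) (h2 : ∀ x, ConvexOn ℝ Set.univ (g x)) :
    RankOneConvex (fun p => g p.1 p.2.1 + c * p.2.2) := by
  intro A D hD
  refine ⟨convex_univ, ?_⟩
  intro s _ t _ a b ha hb hab
  have hb' : b = 1 - a := by linarith
  rcases mul_eq_zero.mp hD.2 with h | h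
  · have := (h2 A.1).2 (mem_univ (A.2.1 + s * D.2.1)) (mem_univ (A.2.1 + t * D.2.1)) ha hb hab
    simp only [smul_eq_mul] at this
    simp only [Prod.fst_add, Prod.snd_add, Prod.smul_fst, Prod.smul_snd, smul_eq_mul, h,
      mul_zero, add_zero]
    have e : a * (A.2.1 + s * D.2.1) + b * (A.2.1 + t * D.2.1) =
        A.2.1 + (a * s + b * t) * D.2.1 := by rw [hb']; ring
    rw [e] at this
    have e2 : c * (A.2.2 + (a * s + b * t) * D.2.2) =
        a * (c * (A.2.2 + s * D.2.2)) + b * (c * (A.2.2 + t * D.2.2)) := by rw [hb']; ring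
    rw [e2]
    linarith
  · have := (h1 A.2.1).2 (mem_univ (A.1 + s * D.1)) (mem_univ (A.1 + t * D.1)) ha hb hab
    simp only [smul_eq_mul] at this
    simp only [Prod.fst_add, Prod.snd_add, Prod.smul_fst, Prod.smul_snd, smul_eq_mul, h,
      mul_zero, add_zero]
    have e : a * (A.1 + s * D.1) + b * (A.1 + t * D.1) =
        A.1 + (a * s + b * t) * D.1 := by rw [hb']; ring
    rw [e] at this
    have e2 : c * (A.2.2 + (a * s + b * t) * D.2.2) =
        a * (c * (A.2.2 + s * D.2.2)) + b * (c * (A.2.2 + t * D.2.2)) := by rw [hb']; ring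
    rw [e2]
    linarith

theorem roc_sup {f g : V → ℝ} (hf : RankOneConvex f) (hg : RankOneConvex g) :
    RankOneConvex (fun p => max (f p) (g p)) :=
  fun A D hD => (hf A D hD).sup (hg A D hD)

theorem cvx_affine (a b : ℝ) : ConvexOn ℝ Set.univ (fun x : ℝ => a * x + b) := by
  refine ⟨convex_univ, ?_⟩
  intro x _ y _ s t hs ht hst
  have ht' : t = 1 - s := by linarith
  simp only [smul_eq_mul]
  apply le_of_eq
  rw [ht']; ring

theorem roc_const (c : ℝ) : RankOneConvex (fun _ => c) := fun _ _ _ => convexOn_const _ convex_univ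

/-- membership in the hull of four points, tested with functions nonpositive at the points -/
def Hl (a b c d p : V) : Prop :=
  ∀ f : V → ℝ, RankOneConvex f → f a ≤ 0 → f b ≤ 0 → f c ≤ 0 → f d ≤ 0 → f p ≤ 0

theorem Hl.rot {a b c d p : V} (h : Hl a b c d p) : Hl b c d a p :=
  fun f hf hb hc hd ha => h f hf ha hb hc hd

/-- a point of the hull is a convex combination -/
theorem Hl.weights {a b c d p : V} (h : Hl a b c d p) :
    ∃ w0 w1 w2 w3 : ℝ, 0 ≤ w0 ∧ 0 ≤ w1 ∧ 0 ≤ w2 ∧ 0 ≤ w3 ∧ w0 + w1 + w2 + w3 = 1 ∧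
      p = w0 • a + w1 • b + w2 • c + w3 • d := by
  set T : (Fin 4 → ℝ) →ₗ[ℝ] V :=
    { toFun := fun w => w 0 • a + w 1 • b + w 2 • c + w 3 • d
      map_add' := by
        intro x y
        simp only [Pi.add_apply, add_smul]
        abel
      map_smul' := by
        intro m x
        simp only [Pi.smul_apply, smul_eq_mul, RingHom.id_apply, smul_add, mul_smul] } with hT
  have hTc : Continuous T := by
    show Continuous (fun w : Fin 4 → ℝ => w 0 • a + w 1 • b + w 2 • c + w 3 • d)
    fun_prop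
  set S : Set V := T '' stdSimplex ℝ (Fin 4) with hS
  have hcv : Convex ℝ S := (convex_stdSimplex ℝ (Fin 4)).linear_image T
  have hcp : IsCompact S := (isCompact_stdSimplex ℝ (Fin 4)).image hTc
  by_cases hp : p ∈ S
  · obtain ⟨w, hw, hwp⟩ := hp
    have hsum := hw.2
    rw [Fin.sum_univ_four] at hsum
    exact ⟨w 0, w 1, w 2, w 3, hw.1 0, hw.1 1, hw.1 2, hw.1 3, hsum, hwp.symm⟩
  · exfalso
    obtain ⟨f, u, hfu, hup⟩ := geometric_hahn_banach_closed_point hcv hcp.isClosed hp
    have hr : RankOneConvex (fun q => f q - u) := by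
      intro A D _
      have := cvx_affine (f D) (f A - u)
      convert this using 2
      simp only [map_add, map_smul, smul_eq_mul]
      ring
    have hv : ∀ w : Fin 4 → ℝ, w ∈ stdSimplex ℝ (Fin 4) → f (T w) - u ≤ 0 := by
      intro w hw
      have := hfu (T w) ⟨w, hw, rfl⟩
      linarith
    have hpt : ∀ i : Fin 4, Pi.single i (1 : ℝ) ∈ stdSimplex ℝ (Fin 4) := fun i =>
      single_mem_stdSimplex ℝ i
    have h0 := hv _ (hpt 0)
    have h1 := hv _ (hpt 1)
    have h2 := hv _ (hpt 2)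
    have h3 := hv _ (hpt 3)
    have e0 : T (Pi.single 0 1) = a := by
      show (Pi.single (0 : Fin 4) (1 : ℝ) : Fin 4 → ℝ) 0 • a + _ + _ + _ = a
      simp
    have e1 : T (Pi.single 1 1) = b := by
      show (Pi.single (1 : Fin 4) (1 : ℝ) : Fin 4 → ℝ) 0 • a + _ + _ + _ = b
      simp
    have e2 : T (Pi.single 2 1) = c := by
      show (Pi.single (2 : Fin 4) (1 : ℝ) : Fin 4 → ℝ) 0 • a + _ + _ + _ = c
      simp
    have e3 : T (Pi.single 3 1) = d := by
      show (Pi.single (3 : Fin 4) (1 : ℝ) : Fin 4 → ℝ) 0 • a + _ + _ + _ = d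
      simp
    rw [e0] at h0
    rw [e1] at h1
    rw [e2] at h2
    rw [e3] at h3
    have := h _ hr h0 h1 h2 h3
    linarith

end Pool.Agent.R783.T4
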