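import Pool.Agent.R783.T4.F

/-!
# Extremality of the hexagon in `{F ≤ 0}`
-/

namespace Pool.Agent.R783.T4

open Set

/-- the hexagon: union of the six closed edges -/
def onZ (p : V) : Prop :=
  (p.2.1 = 0 ∧ p.2.2 = 0 ∧ 0 ≤ p.1 ∧ p.1 ≤ 2) ∨
  (p.1 = 2 ∧ p.2.2 = 0 ∧ 0 ≤ p.2.1 ∧ p.2.1 ≤ 1) ∨
  (p.2.1 = 1 ∧ p.2.2 = p.1 - 2 ∧ 1 ≤ p.1 ∧ p.1 ≤ 2) ∨
  (p.1 = 1 ∧ p.2.2 = 2 * p.2.1 - 3 ∧ 1 ≤ p.2.1 ∧ p.2.1 ≤ 2) ∨
  (p.2.1 = 2 ∧ p.2.2 = p.1 ∧ 0 ≤ p.1 ∧ p.1 ≤ 1) ∨
  (p.1 = 0 ∧ p.2.2 = 0 ∧ 0 ≤ p.2.1 ∧ p.2.1 ≤ 2)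

/-- `q` lies strictly ahead of `p` in a common closed edge -/
def Fw (p q : V) : Prop :=
  (p.2.1 = 0 ∧ q.2.1 = 0 ∧ q.2.2 = 0 ∧ 0 ≤ p.1 ∧ p.1 < q.1 ∧ q.1 ≤ 2) ∨
  (p.1 = 2 ∧ q.1 = 2 ∧ q.2.2 = 0 ∧ 0 ≤ p.2.1 ∧ p.2.1 < q.2.1 ∧ q.2.1 ≤ 1) ∨
  (p.2.1 = 1 ∧ q.2.1 = 1 ∧ q.2.2 = q.1 - 2 ∧ 1 ≤ q.1 ∧ q.1 < p.1 ∧ p.1 ≤ 2) ∨
  (p.1 = 1 ∧ q.1 = 1 ∧ q.2.2 = 2 * q.2.1 - 3 ∧ 1 ≤ p.2.1 ∧ p.2.1 < q.2.1 ∧ q.2.1 ≤ 2) ∨
  (p.2.1 = 2 ∧ q.2.1 = 2 ∧ q.2.2 = q.1 ∧ 0 ≤ q.1 ∧ q.1 < p.1 ∧ p.1 ≤ 1) ∨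
  (p.1 = 0 ∧ q.1 = 0 ∧ q.2.2 = 0 ∧ 0 ≤ q.2.1 ∧ q.2.1 < p.2.1 ∧ p.2.1 ≤ 2)

theorem Fw.onZ {p q : V} (h : Fw p q) : onZ q := by
  rcases h with h | h | h | h | h | h
  · exact Or.inl ⟨h.2.1, h.2.2.1, by linarith [h.2.2.2.1, h.2.2.2.2.1], h.2.2.2.2.2⟩
  · exact Or.inr (Or.inl ⟨h.2.1, h.2.2.1, by linarith [h.2.2.2.1, h.2.2.2.2.1], h.2.2.2.2.2⟩)
  · exact Or.inr (Or.inr (Or.inl ⟨h.2.1, h.2.2.1, h.2.2.2.1,
      by linarith [h.2.2.2.2.1, h.2.2.2.2.2]⟩))
  · exact Or.inr (Or.inr (Or.inr (Or.inl ⟨h.2.1, h.2.2.1,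
      by linarith [h.2.2.2.1, h.2.2.2.2.1], h.2.2.2.2.2⟩)))
  · exact Or.inr (Or.inr (Or.inr (Or.inr (Or.inl ⟨h.2.1, h.2.2.1, h.2.2.2.1,
      by linarith [h.2.2.2.2.1, h.2.2.2.2.2]⟩))))
  · exact Or.inr (Or.inr (Or.inr (Or.inr (Or.inr ⟨h.2.1, h.2.2.1, h.2.2.2.1,
      by linarith [h.2.2.2.2.1, h.2.2.2.2.2]⟩))))

theorem V0_ge0 (y : ℝ) : 0 ≤ V0 y := le_max_left _ _
theorem V0_ge1 (y : ℝ) : -16 * y ≤ V0 y := le_max_right _ _
theorem V1_ge0 (y : ℝ) : -8 * y ≤ V1 y := le_trans (le_max_left _ _) (le_max_left _ _)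
theorem V1_ge1 (y : ℝ) : -4 * y ≤ V1 y := le_trans (le_max_right _ _) (le_max_left _ _)
theorem V1_ge2 (y : ℝ) : 2 * y - 3 ≤ V1 y := le_trans (le_max_left _ _) (le_max_right _ _)
theorem V1_ge3 (y : ℝ) : 3 * y - 5 ≤ V1 y := le_trans (le_max_right _ _) (le_max_right _ _)
theorem V2_ge0 (y : ℝ) : 0 ≤ V2 y := le_max_left _ _
theorem V2_ge1 (y : ℝ) : 2 * y - 2 ≤ V2 y := le_trans (le_max_left _ _) (le_max_right _ _)
theorem V2_ge2 (y : ℝ) : 6 * y - 10 ≤ V2 y := le_trans (le_max_right _ _) (le_max_right _ _)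

theorem V0_of_nonneg {y : ℝ} (h : 0 ≤ y) : V0 y = 0 := max_eq_left (by linarith)
theorem V2_of_le_one {y : ℝ} (h : y ≤ 1) : V2 y = 0 :=
  max_eq_left (max_le (by linarith) (by linarith))
theorem V1_mid {y : ℝ} (h : 1/2 ≤ y) (h' : y ≤ 2) : V1 y = 2 * y - 3 := by
  unfold V1
  rw [max_eq_right (by linarith : -8 * y ≤ -4 * y),
    max_eq_left (by linarith : 3 * y - 5 ≤ 2 * y - 3), max_eq_right (by linarith)]
theorem V2_mid {y : ℝ} (h : 1 ≤ y) (h' : y ≤ 2) : V2 y = 2 * y - 2 := by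
  unfold V2
  rw [max_eq_left (by linarith : 6 * y - 10 ≤ 2 * y - 2), max_eq_right (by linarith)]
theorem V1_zero : V1 0 = 0 := by unfold V1; norm_num

theorem L_x0 (y : ℝ) : L 0 y = V0 y := by rw [L_le0 le_rfl]; unfold q0; ring
theorem L_x1 (y : ℝ) : L 1 y = V1 y := by rw [L_01 (by norm_num) le_rfl]; unfold q1; ring
theorem L_x2 (y : ℝ) : L 2 y = V2 y := by rw [L_12 (by norm_num) le_rfl]; unfold q2; ring

/-- the two directions, in coordinates -/
theorem ext_main {p A B : V} {t : ℝ} (hp : onZ p) (h0 : 0 < t) (h1 : t < 1)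
    (hpt : p = (1 - t) • A + t • B) (hc : Conn A B) (hA : F A ≤ 0) (hB : F B ≤ 0) :
    A = B ∨ Fw p A ∨ Fw p B := by
  obtain ⟨a, a2, a3⟩ := A
  obtain ⟨b, b2, b3⟩ := B
  obtain ⟨x, y, z⟩ := p
  simp only [Prod.smul_mk, smul_eq_mul, Prod.mk_add_mk, Prod.mk.injEq] at hpt
  obtain ⟨hx, hy, hz⟩ := hpt
  have hA' : L a a2 ≤ a3 := by
    have : L a a2 - a3 ≤ 0 := hA
    linarith
  have hB' : L b b2 ≤ b3 := by
    have : L b b2 - b3 ≤ 0 := hB
    linarith
  unfold Conn at hc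
  simp only at hc
  -- refine to half-open edges
  have hcase : (y = 0 ∧ z = 0 ∧ 0 ≤ x ∧ x < 2) ∨ (x = 2 ∧ z = 0 ∧ 0 ≤ y ∧ y < 1) ∨
      (y = 1 ∧ z = x - 2 ∧ 1 < x ∧ x ≤ 2) ∨ (x = 1 ∧ z = 2 * y - 3 ∧ 1 ≤ y ∧ y < 2) ∨
      (y = 2 ∧ z = x ∧ 0 < x ∧ x ≤ 1) ∨ (x = 0 ∧ z = 0 ∧ 0 < y ∧ y ≤ 2) := by
    rcases hp with h | h | h | h | h | h
    · obtain ⟨e1, e2, e3, e4⟩ := h
      simp only at e1 e2 e3 e4
      rcases eq_or_lt_of_le e4 with e | e
      · right; left; exact ⟨e, e2, by linarith, by linarith⟩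
      · left; exact ⟨e1, e2, e3, e⟩
    · obtain ⟨e1, e2, e3, e4⟩ := h
      simp only at e1 e2 e3 e4
      rcases eq_or_lt_of_le e4 with e | e
      · right; right; left; exact ⟨e, by linarith, by linarith, by linarith⟩
      · right; left; exact ⟨e1, e2, e3, e⟩
    · obtain ⟨e1, e2, e3, e4⟩ := h
      simp only at e1 e2 e3 e4
      rcases eq_or_lt_of_le e3 with e | e
      · right; right; right; left; exact ⟨e.symm, by linarith, by linarith, by linarith⟩
      · right; right; left; exact ⟨e1, e2, e, e4⟩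
    · obtain ⟨e1, e2, e3, e4⟩ := h
      simp only at e1 e2 e3 e4
      rcases eq_or_lt_of_le e4 with e | e
      · right; right; right; right; left; exact ⟨e, by linarith, by linarith, by linarith⟩
      · right; right; right; left; exact ⟨e1, e2, e3, e⟩
    · obtain ⟨e1, e2, e3, e4⟩ := h
      simp only at e1 e2 e3 e4
      rcases eq_or_lt_of_le e3 with e | e
      · right; right; right; right; right; exact ⟨e.symm, by linarith, by linarith, by linarith⟩
      · right; right; right; right; left; exact ⟨e1, e2, e, e4⟩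
    · obtain ⟨e1, e2, e3, e4⟩ := h
      simp only at e1 e2 e3 e4
      rcases eq_or_lt_of_le e3 with e | e
      · left; exact ⟨e.symm, e2, by linarith, by linarith⟩
      · right; right; right; right; right; exact ⟨e1, e2, e, e4⟩
  rcases hc with hc | hc
  · -- y-direction: a = b
    subst hc
    have hxa : x = a := by rw [hx]; ring
    subst hxa
    have fin : a2 = b2 ∧ a3 = b3 → ((x, a2, a3) : V) = (x, b2, b3) ∨
        Fw (x, y, z) (x, a2, a3) ∨ Fw (x, y, z) (x, b2, b3) := by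
      rintro ⟨rfl, rfl⟩; left; rfl
    rcases hcase with h | h | h | h | h | h
    · obtain ⟨rfl, rfl, e3, e4⟩ := h
      rcases le_total x 1 with hx1 | hx1
      · have hφ : L x 0 = 0 := by
          rw [L_01 e3 hx1]; unfold q1; rw [V0_of_nonneg le_rfl, V1_zero]; ring
        apply fin
        refine kink (φ := L x) (x := 0) (s1 := -16 + 8 * x) (s2 := -4 * x) h0 h1 hy ?_ ?_
          (by linarith) hA' hB' (by rw [hφ]; exact hz)
        · intro u
          rw [hφ, L_01 e3 hx1]; unfold q1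
          have g1 := mul_le_mul_of_nonneg_left (V0_ge1 u) (sub_nonneg.mpr hx1)
          have g2 := mul_le_mul_of_nonneg_left (V1_ge0 u) e3
          have : 0 + (-16 + 8 * x) * (u - 0) = (1 - x) * (-16 * u) + x * (-8 * u) := by ring
          rw [this]; linarith
        · intro u
          rw [hφ, L_01 e3 hx1]; unfold q1
          have g1 := mul_le_mul_of_nonneg_left (V0_ge0 u) (sub_nonneg.mpr hx1)
          have g2 := mul_le_mul_of_nonneg_left (V1_ge1 u) e3
          have : 0 + (-4 * x) * (u - 0) = (1 - x) * 0 + x * (-4 * u) := by ring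
          rw [this]; linarith
      · have hφ : L x 0 = 0 := by
          rw [L_12 hx1 e4.le]; unfold q2; rw [V2_of_le_one (by norm_num), V1_zero]; ring
        apply fin
        refine kink (φ := L x) (x := 0) (s1 := -8 * (2 - x)) (s2 := -4 * (2 - x)) h0 h1 hy ?_ ?_
          (by linarith) hA' hB' (by rw [hφ]; exact hz)
        · intro u
          rw [hφ, L_12 hx1 e4.le]; unfold q2
          have g1 := mul_le_mul_of_nonneg_left (V1_ge0 u) (sub_nonneg.mpr e4.le)
          have g2 := mul_le_mul_of_nonneg_left (V2_ge0 u) (sub_nonneg.mpr hx1)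
          have : 0 + (-8 * (2 - x)) * (u - 0) = (2 - x) * (-8 * u) + (x - 1) * 0 := by ring
          rw [this]; linarith
        · intro u
          rw [hφ, L_12 hx1 e4.le]; unfold q2
          have g1 := mul_le_mul_of_nonneg_left (V1_ge1 u) (sub_nonneg.mpr e4.le)
          have g2 := mul_le_mul_of_nonneg_left (V2_ge0 u) (sub_nonneg.mpr hx1)
          have : 0 + (-4 * (2 - x)) * (u - 0) = (2 - x) * (-4 * u) + (x - 1) * 0 := by ring
          rw [this]; linarith
    · obtain ⟨rfl, rfl, e3, e4⟩ := h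
      have hφ : L 2 y = 0 := by rw [L_x2, V2_of_le_one e4.le]
      rcases flat_up (φ := L 2) (x := y) (s := 0) (e := 1) h0 h1 hy
        (by intro u; rw [hφ, L_x2]; linarith [V2_ge0 u])
        (by intro u hu; rw [hφ, L_x2] at hu; linarith [V2_ge1 u]) hA' hB'
        (by rw [hφ]; exact hz) with h | h | h
      · exact fin h
      · right; left; right; left
        exact ⟨rfl, rfl, by rw [h.2.2, hφ]; ring, e3, h.1, h.2.1⟩
      · right; right; right; left
        exact ⟨rfl, rfl, by rw [h.2.2, hφ]; ring, e3, h.1, h.2.1⟩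
    · obtain ⟨rfl, rfl, e3, e4⟩ := h
      have hφ : L x 1 = x - 2 := by
        rw [L_12 e3.le e4]; unfold q2
        rw [V1_mid (by norm_num) (by norm_num), V2_of_le_one le_rfl]; ring
      apply fin
      refine kink (φ := L x) (x := 1) (s1 := 2 * (2 - x)) (s2 := 2) h0 h1 hy ?_ ?_
        (by linarith) hA' hB' (by rw [hφ]; exact hz)
      · intro u
        rw [hφ, L_12 e3.le e4]; unfold q2
        have g1 := mul_le_mul_of_nonneg_left (V1_ge2 u) (sub_nonneg.mpr e4)
        have g2 := mul_le_mul_of_nonneg_left (V2_ge0 u) (sub_nonneg.mpr e3.le)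
        have : x - 2 + 2 * (2 - x) * (u - 1) = (2 - x) * (2 * u - 3) + (x - 1) * 0 := by ring
        rw [this]; linarith
      · intro u
        rw [hφ, L_12 e3.le e4]; unfold q2
        have g1 := mul_le_mul_of_nonneg_left (V1_ge2 u) (sub_nonneg.mpr e4)
        have g2 := mul_le_mul_of_nonneg_left (V2_ge1 u) (sub_nonneg.mpr e3.le)
        have : x - 2 + 2 * (u - 1) = (2 - x) * (2 * u - 3) + (x - 1) * (2 * u - 2) := by ring
        rw [this]; linarith
    · obtain ⟨rfl, rfl, e3, e4⟩ := h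
      have hφ : L 1 y = 2 * y - 3 := by rw [L_x1, V1_mid (by linarith) e4.le]
      rcases flat_up (φ := L 1) (x := y) (s := 2) (e := 2) h0 h1 hy
        (by intro u; rw [hφ, L_x1]; linarith [V1_ge2 u])
        (by intro u hu; rw [hφ, L_x1] at hu; linarith [V1_ge3 u]) hA' hB'
        (by rw [hφ]; exact hz) with h | h | h
      · exact fin h
      · right; left; right; right; right; left
        exact ⟨rfl, rfl, by simp only; rw [h.2.2, hφ]; ring, e3, h.1, h.2.1⟩
      · right; right; right; right; right; left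
        exact ⟨rfl, rfl, by simp only; rw [h.2.2, hφ]; ring, e3, h.1, h.2.1⟩
    · obtain ⟨rfl, rfl, e3, e4⟩ := h
      have hφ : L z 2 = z := by
        rw [L_01 e3.le e4]; unfold q1
        rw [V1_mid (by norm_num) (by norm_num), V0_of_nonneg (by norm_num)]; ring
      apply fin
      refine kink (φ := L z) (x := 2) (s1 := 2 * z) (s2 := 3 * z) h0 h1 hy ?_ ?_
        (by linarith) hA' hB' (by rw [hφ]; exact hz)
      · intro u
        rw [hφ, L_01 e3.le e4]; unfold q1
        have g1 := mul_le_mul_of_nonneg_left (V0_ge0 u) (sub_nonneg.mpr e4)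
        have g2 := mul_le_mul_of_nonneg_left (V1_ge2 u) e3.le
        have : z + 2 * z * (u - 2) = (1 - z) * 0 + z * (2 * u - 3) := by ring
        rw [this]; linarith
      · intro u
        rw [hφ, L_01 e3.le e4]; unfold q1
        have g1 := mul_le_mul_of_nonneg_left (V0_ge0 u) (sub_nonneg.mpr e4)
        have g2 := mul_le_mul_of_nonneg_left (V1_ge3 u) e3.le
        have : z + 3 * z * (u - 2) = (1 - z) * 0 + z * (3 * u - 5) := by ring
        rw [this]; linarith
    · obtain ⟨rfl, rfl, e3, e4⟩ := h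
      have hφ : L 0 y = 0 := by rw [L_x0, V0_of_nonneg e3.le]
      rcases flat_dn (φ := L 0) (x := y) (s := 0) (e := 0) h0 h1 hy
        (by intro u; rw [hφ, L_x0]; linarith [V0_ge0 u])
        (by intro u hu; rw [hφ, L_x0] at hu; linarith [V0_ge1 u]) hA' hB'
        (by rw [hφ]; exact hz) with h | h | h
      · exact fin h
      · right; left; right; right; right; right; right
        exact ⟨rfl, rfl, by rw [h.2.2, hφ]; ring, h.2.1, h.1, e4⟩
      · right; right; right; right; right; right; right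
        exact ⟨rfl, rfl, by rw [h.2.2, hφ]; ring, h.2.1, h.1, e4⟩
  · -- x-direction: a2 = b2
    subst hc
    have hya : y = a2 := by rw [hy]; ring
    subst hya
    have fin : a = b ∧ a3 = b3 → ((a, y, a3) : V) = (b, y, b3) ∨
        Fw (x, y, z) (a, y, a3) ∨ Fw (x, y, z) (b, y, b3) := by
      rintro ⟨rfl, rfl⟩; left; rfl
    rcases hcase with h | h | h | h | h | h
    · obtain ⟨rfl, rfl, e3, e4⟩ := h
      have hq1 : ∀ u, q1 u 0 = 0 := by
        intro u; unfold q1; rw [V0_of_nonneg le_rfl, V1_zero]; ring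
      have hq3 : ∀ u, q3 u 0 = 4 * (u - 2) := by
        intro u; unfold q3; rw [V2_of_le_one (by norm_num)]
        rw [show |(0:ℝ) - 1| = 1 by norm_num]; ring
      have hφ : L x 0 = 0 := by
        rcases le_total x 1 with hx1 | hx1
        · rw [L_01 e3 hx1]; exact hq1 x
        · rw [L_12 hx1 e4.le]; unfold q2; rw [V2_of_le_one (by norm_num), V1_zero]; ring
      rcases flat_up (φ := fun u => L u 0) (x := x) (s := 0) (e := 2) h0 h1 hx
        (by intro u; rw [hφ]; linarith [q1_le u 0, hq1 u])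
        (by intro u hu; rw [hφ] at hu; linarith [q3_le u 0, hq3 u]) hA' hB'
        (by rw [hφ]; exact hz) with h | h | h
      · exact fin h
      · right; left; left
        exact ⟨rfl, rfl, by rw [h.2.2]; simp only; rw [hφ]; ring, e3, h.1, h.2.1⟩
      · right; right; left
        exact ⟨rfl, rfl, by rw [h.2.2]; simp only; rw [hφ]; ring, e3, h.1, h.2.1⟩
    · obtain ⟨rfl, rfl, e3, e4⟩ := h
      have hV2 : V2 y = 0 := V2_of_le_one e4.le
      have hφ : L 2 y = 0 := by rw [L_x2, hV2]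
      apply fin
      refine kink (φ := fun u => L u y) (x := 2) (s1 := V2 y - V1 y) (s2 := 1 + 3 * |y - 1|)
        h0 h1 hx ?_ ?_ ?_ hA' hB' (by rw [hφ]; exact hz)
      · intro u
        rw [hφ]
        have : q2 u y = 0 + (V2 y - V1 y) * (u - 2) := by unfold q2; rw [hV2]; ring
        rw [← this]; exact q2_le u y
      · intro u
        rw [hφ]
        have : q3 u y = 0 + (1 + 3 * |y - 1|) * (u - 2) := by unfold q3; rw [hV2]; ring
        rw [← this]; exact q3_le u y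
      · rw [hV2, abs_of_nonpos (by linarith)]
        rcases le_total y (1/2) with h | h
        · linarith [V1_ge1 y]
        · linarith [V1_ge2 y]
    · obtain ⟨rfl, rfl, e3, e4⟩ := h
      have hq2 : ∀ u, q2 u 1 = u - 2 := by
        intro u; unfold q2
        rw [V1_mid (by norm_num) (by norm_num), V2_of_le_one le_rfl]; ring
      have hq1 : ∀ u, q1 u 1 = -u := by
        intro u; unfold q1
        rw [V1_mid (by norm_num) (by norm_num), V0_of_nonneg (by norm_num)]; ring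
      have hφ : L x 1 = x - 2 := by rw [L_12 e3.le e4]; exact hq2 x
      rcases flat_dn (φ := fun u => L u 1) (x := x) (s := 1) (e := 1) h0 h1 hx
        (by intro u; rw [hφ]; linarith [q2_le u 1, hq2 u])
        (by intro u hu; rw [hφ] at hu; linarith [q1_le u 1, hq1 u]) hA' hB'
        (by rw [hφ]; exact hz) with h | h | h
      · exact fin h
      · right; left; right; right; left
        exact ⟨rfl, rfl, by simp only; rw [h.2.2]; rw [hφ]; ring, h.2.1, h.1, e4⟩
      · right; right; right; right; left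
        exact ⟨rfl, rfl, by simp only; rw [h.2.2]; rw [hφ]; ring, h.2.1, h.1, e4⟩
    · obtain ⟨rfl, rfl, e3, e4⟩ := h
      have hV0 : V0 y = 0 := V0_of_nonneg (by linarith)
      have hV1 : V1 y = 2 * y - 3 := V1_mid (by linarith) e4.le
      have hV2 : V2 y = 2 * y - 2 := V2_mid e3 e4.le
      have hφ : L 1 y = 2 * y - 3 := by rw [L_x1, hV1]
      apply fin
      refine kink (φ := fun u => L u y) (x := 1) (s1 := 2 * y - 3) (s2 := 1)
        h0 h1 hx ?_ ?_ (by linarith) hA' hB' (by rw [hφ]; exact hz)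
      · intro u
        rw [hφ]
        have : q1 u y = 2 * y - 3 + (2 * y - 3) * (u - 1) := by unfold q1; rw [hV0, hV1]; ring
        rw [← this]; exact q1_le u y
      · intro u
        rw [hφ]
        have : q2 u y = 2 * y - 3 + 1 * (u - 1) := by unfold q2; rw [hV1, hV2]; ring
        rw [← this]; exact q2_le u y
    · obtain ⟨rfl, hzx, e3, e4⟩ := h
      subst hzx
      have hq1 : ∀ u, q1 u 2 = u := by
        intro u; unfold q1
        rw [V1_mid (by norm_num) (by norm_num), V0_of_nonneg (by norm_num)]; ring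
      have hq0 : ∀ u, q0 u 2 = -16 * u := by
        intro u; unfold q0
        rw [V0_of_nonneg (by norm_num), show |(2:ℝ)| = 2 by norm_num]; ring
      have hφ : L z 2 = z := by rw [L_01 e3.le e4]; exact hq1 z
      rcases flat_dn (φ := fun u => L u 2) (x := z) (s := 1) (e := 0) h0 h1 hx
        (by intro u; rw [hφ]; linarith [q1_le u 2, hq1 u])
        (by intro u hu; rw [hφ] at hu; linarith [q0_le u 2, hq0 u]) hA' hB'
        (by rw [hφ]; exact hz) with h | h | h
      · exact fin h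
      · right; left; right; right; right; right; left
        exact ⟨rfl, rfl, by simp only; rw [h.2.2]; rw [hφ]; ring, h.2.1, h.1, e4⟩
      · right; right; right; right; right; right; left
        exact ⟨rfl, rfl, by simp only; rw [h.2.2]; rw [hφ]; ring, h.2.1, h.1, e4⟩
    · obtain ⟨rfl, rfl, e3, e4⟩ := h
      have hV0 : V0 y = 0 := V0_of_nonneg (by linarith)
      have hφ : L 0 y = 0 := by rw [L_x0, hV0]
      apply fin
      refine kink (φ := fun u => L u y) (x := 0) (s1 := -8 * y) (s2 := V1 y)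
        h0 h1 hx ?_ ?_ (by linarith [V1_ge1 y]) hA' hB' (by rw [hφ]; exact hz)
      · intro u
        rw [hφ]
        have : q0 u y = 0 + -8 * y * (u - 0) := by
          unfold q0; rw [hV0, abs_of_pos e3]; ring
        rw [← this]; exact q0_le u y
      · intro u
        rw [hφ]
        have : q1 u y = 0 + V1 y * (u - 0) := by unfold q1; rw [hV0]; ring
        rw [← this]; exact q1_le u y

end Pool.Agent.R783.T4
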