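import Pool.Agent.R783.T4.Defs

/-!
# The rank-one convex function `F` and extremality of the hexagon
-/

namespace Pool.Agent.R783.T4

open Set

noncomputable def V0 (y : ℝ) : ℝ := max 0 (-16 * y)
noncomputable def V1 (y : ℝ) : ℝ := max (max (-8 * y) (-4 * y)) (max (2 * y - 3) (3 * y - 5))
noncomputable def V2 (y : ℝ) : ℝ := max 0 (max (2 * y - 2) (6 * y - 10))
noncomputable def q0 (x y : ℝ) : ℝ := V0 y - 8 * x * |y|
noncomputable def q1 (x y : ℝ) : ℝ := (1 - x) * V0 y + x * V1 y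
noncomputable def q2 (x y : ℝ) : ℝ := (2 - x) * V1 y + (x - 1) * V2 y
noncomputable def q3 (x y : ℝ) : ℝ := V2 y + (x - 2) * (1 + 3 * |y - 1|)

noncomputable def L (x y : ℝ) : ℝ := max (max (q0 x y) (q1 x y)) (max (q2 x y) (q3 x y))

noncomputable def F (p : V) : ℝ := L p.1 p.2.1 - p.2.2

theorem slopes (y : ℝ) : -8 * |y| ≤ V1 y - V0 y ∧ V1 y - V0 y ≤ V2 y - V1 y ∧
    V2 y - V1 y ≤ 1 + 3 * |y - 1| := by
  rcases le_total y 0 with h | h
  · have e0 : V0 y = -16 * y := max_eq_right (by linarith)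
    have e1 : V1 y = -8 * y := by
      unfold V1
      rw [max_eq_left (by linarith : -4 * y ≤ -8 * y),
        max_eq_left (by linarith : 3 * y - 5 ≤ 2 * y - 3), max_eq_left (by linarith)]
    have e2 : V2 y = 0 := by
      unfold V2
      exact max_eq_left (max_le (by linarith) (by linarith))
    rw [e0, e1, e2, abs_of_nonpos h, abs_of_nonpos (by linarith)]
    refine ⟨by linarith, by linarith, by linarith⟩
  have e0 : V0 y = 0 := max_eq_left (by linarith)
  have ea : |y| = y := abs_of_nonneg h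
  rcases le_total y (1/2) with h1 | h1
  · have e1 : V1 y = -4 * y := by
      unfold V1
      rw [max_eq_right (by linarith : -8 * y ≤ -4 * y),
        max_eq_left (by linarith : 3 * y - 5 ≤ 2 * y - 3), max_eq_left (by linarith)]
    have e2 : V2 y = 0 := by
      unfold V2
      exact max_eq_left (max_le (by linarith) (by linarith))
    rw [e0, e1, e2, ea, abs_of_nonpos (by linarith)]
    refine ⟨by linarith, by linarith, by linarith⟩
  rcases le_total y 2 with h2 | h2
  · have e1 : V1 y = 2 * y - 3 := by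
      unfold V1
      rw [max_eq_right (by linarith : -8 * y ≤ -4 * y),
        max_eq_left (by linarith : 3 * y - 5 ≤ 2 * y - 3), max_eq_right (by linarith)]
    rcases le_total y 1 with h3 | h3
    · have e2 : V2 y = 0 := by
        unfold V2
        exact max_eq_left (max_le (by linarith) (by linarith))
      rw [e0, e1, e2, ea, abs_of_nonpos (by linarith)]
      refine ⟨by linarith, by linarith, by linarith⟩
    · have e2 : V2 y = 2 * y - 2 := by
        unfold V2
        rw [max_eq_left (by linarith : 6 * y - 10 ≤ 2 * y - 2), max_eq_right (by linarith)]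
      rw [e0, e1, e2, ea, abs_of_nonneg (by linarith)]
      refine ⟨by linarith, by linarith, by linarith⟩
  · have e1 : V1 y = 3 * y - 5 := by
      unfold V1
      rw [max_eq_right (by linarith : -8 * y ≤ -4 * y),
        max_eq_right (by linarith : 2 * y - 3 ≤ 3 * y - 5), max_eq_right (by linarith)]
    have e2 : V2 y = 6 * y - 10 := by
      unfold V2
      rw [max_eq_right (by linarith : 2 * y - 2 ≤ 6 * y - 10), max_eq_right (by linarith)]
    rw [e0, e1, e2, ea, abs_of_nonneg (by linarith)]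
    refine ⟨by linarith, by linarith, by linarith⟩

theorem q0_le (x y : ℝ) : q0 x y ≤ L x y := le_trans (le_max_left _ _) (le_max_left _ _)
theorem q1_le (x y : ℝ) : q1 x y ≤ L x y := le_trans (le_max_right _ _) (le_max_left _ _)
theorem q2_le (x y : ℝ) : q2 x y ≤ L x y := le_trans (le_max_left _ _) (le_max_right _ _)
theorem q3_le (x y : ℝ) : q3 x y ≤ L x y := le_trans (le_max_right _ _) (le_max_right _ _)

theorem q01 (x y : ℝ) : q1 x y - q0 x y = x * (V1 y - V0 y + 8 * |y|) := by unfold q0 q1; ring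
theorem q12 (x y : ℝ) : q2 x y - q1 x y = (x - 1) * ((V2 y - V1 y) - (V1 y - V0 y)) := by
  unfold q2 q1; ring
theorem q23 (x y : ℝ) : q3 x y - q2 x y = (x - 2) * (1 + 3 * |y - 1| - (V2 y - V1 y)) := by
  unfold q2 q3; ring

theorem L_le0 {x : ℝ} (h : x ≤ 0) (y : ℝ) : L x y = q0 x y := by
  obtain ⟨s1, s2, s3⟩ := slopes y
  have h01 := q01 x y
  have h12 := q12 x y
  have h23 := q23 x y
  have a1 : x * (V1 y - V0 y + 8 * |y|) ≤ 0 := mul_nonpos_of_nonpos_of_nonneg h (by linarith)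
  have a2 : (x - 1) * ((V2 y - V1 y) - (V1 y - V0 y)) ≤ 0 :=
    mul_nonpos_of_nonpos_of_nonneg (by linarith) (by linarith)
  have a3 : (x - 2) * (1 + 3 * |y - 1| - (V2 y - V1 y)) ≤ 0 :=
    mul_nonpos_of_nonpos_of_nonneg (by linarith) (by linarith)
  apply le_antisymm _ (q0_le x y)
  exact max_le (max_le le_rfl (by linarith)) (max_le (by linarith) (by linarith))

theorem L_01 {x : ℝ} (h : 0 ≤ x) (h' : x ≤ 1) (y : ℝ) : L x y = q1 x y := by
  obtain ⟨s1, s2, s3⟩ := slopes y
  have h01 := q01 x y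
  have h12 := q12 x y
  have h23 := q23 x y
  have a1 : 0 ≤ x * (V1 y - V0 y + 8 * |y|) := mul_nonneg h (by linarith)
  have a2 : (x - 1) * ((V2 y - V1 y) - (V1 y - V0 y)) ≤ 0 :=
    mul_nonpos_of_nonpos_of_nonneg (by linarith) (by linarith)
  have a3 : (x - 2) * (1 + 3 * |y - 1| - (V2 y - V1 y)) ≤ 0 :=
    mul_nonpos_of_nonpos_of_nonneg (by linarith) (by linarith)
  apply le_antisymm _ (q1_le x y)
  exact max_le (max_le (by linarith) le_rfl) (max_le (by linarith) (by linarith))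

theorem L_12 {x : ℝ} (h : 1 ≤ x) (h' : x ≤ 2) (y : ℝ) : L x y = q2 x y := by
  obtain ⟨s1, s2, s3⟩ := slopes y
  have h01 := q01 x y
  have h12 := q12 x y
  have h23 := q23 x y
  have a1 : 0 ≤ x * (V1 y - V0 y + 8 * |y|) := mul_nonneg (by linarith) (by linarith)
  have a2 : 0 ≤ (x - 1) * ((V2 y - V1 y) - (V1 y - V0 y)) :=
    mul_nonneg (by linarith) (by linarith)
  have a3 : (x - 2) * (1 + 3 * |y - 1| - (V2 y - V1 y)) ≤ 0 :=
    mul_nonpos_of_nonpos_of_nonneg (by linarith) (by linarith)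
  apply le_antisymm _ (q2_le x y)
  exact max_le (max_le (by linarith) (by linarith)) (max_le le_rfl (by linarith))

theorem L_ge2 {x : ℝ} (h : 2 ≤ x) (y : ℝ) : L x y = q3 x y := by
  obtain ⟨s1, s2, s3⟩ := slopes y
  have h01 := q01 x y
  have h12 := q12 x y
  have h23 := q23 x y
  have a1 : 0 ≤ x * (V1 y - V0 y + 8 * |y|) := mul_nonneg (by linarith) (by linarith)
  have a2 : 0 ≤ (x - 1) * ((V2 y - V1 y) - (V1 y - V0 y)) :=
    mul_nonneg (by linarith) (by linarith)
  have a3 : 0 ≤ (x - 2) * (1 + 3 * |y - 1| - (V2 y - V1 y)) :=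
    mul_nonneg (by linarith) (by linarith)
  apply le_antisymm _ (q3_le x y)
  exact max_le (max_le (by linarith) (by linarith)) (max_le (by linarith) le_rfl)

theorem cvx_smul {f : ℝ → ℝ} {c : ℝ} (hc : 0 ≤ c) (hf : ConvexOn ℝ Set.univ f) :
    ConvexOn ℝ Set.univ (fun x => c * f x) := by
  have := hf.smul hc
  exact this

theorem cvx_add {f g : ℝ → ℝ} (hf : ConvexOn ℝ Set.univ f) (hg : ConvexOn ℝ Set.univ g) :
    ConvexOn ℝ Set.univ (fun x => f x + g x) := hf.add hg

theorem cvx_max {f g : ℝ → ℝ} (hf : ConvexOn ℝ Set.univ f) (hg : ConvexOn ℝ Set.univ g) :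
    ConvexOn ℝ Set.univ (fun x => max (f x) (g x)) := hf.sup hg

theorem cvx_aff' (a b : ℝ) {f : ℝ → ℝ} (h : ∀ x, f x = a * x + b) :
    ConvexOn ℝ Set.univ f := by
  have : f = fun x => a * x + b := funext h
  rw [this]
  exact cvx_affine a b

theorem cvx_V0 : ConvexOn ℝ Set.univ V0 :=
  cvx_max (cvx_aff' 0 0 (by intro x; ring)) (cvx_aff' (-16) 0 (by intro x; ring))

theorem cvx_V1 : ConvexOn ℝ Set.univ V1 :=
  cvx_max (cvx_max (cvx_aff' (-8) 0 (by intro x; ring)) (cvx_aff' (-4) 0 (by intro x; ring)))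
    (cvx_max (cvx_aff' 2 (-3) (by intro x; ring)) (cvx_aff' 3 (-5) (by intro x; ring)))

theorem cvx_V2 : ConvexOn ℝ Set.univ V2 :=
  cvx_max (cvx_aff' 0 0 (by intro x; ring))
    (cvx_max (cvx_aff' 2 (-2) (by intro x; ring)) (cvx_aff' 6 (-10) (by intro x; ring)))

theorem cvx_abs_sub (c : ℝ) : ConvexOn ℝ Set.univ (fun y : ℝ => |y - c|) := by
  have := cvx_max (cvx_aff' 1 (-c) (f := fun y : ℝ => y - c) (by intro x; ring))
    (cvx_aff' (-1) c (f := fun y : ℝ => -(y - c)) (by intro x; ring))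
  exact this

theorem cvx_abs : ConvexOn ℝ Set.univ (fun y : ℝ => |y|) := by
  have := cvx_abs_sub 0
  simpa using this

theorem F_roc : RankOneConvex F := by
  have h := roc_of_sep L (-1) ?_ ?_
  · have e : F = fun p : V => L p.1 p.2.1 + -1 * p.2.2 := by
      funext p; unfold F; ring
    rw [e]; exact h
  · intro y
    refine cvx_max (cvx_max ?_ ?_) (cvx_max ?_ ?_)
    · exact cvx_aff' (-8 * |y|) (V0 y) (by intro x; unfold q0; ring)
    · exact cvx_aff' (V1 y - V0 y) (V0 y) (by intro x; unfold q1; ring)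
    · exact cvx_aff' (V2 y - V1 y) (2 * V1 y - V2 y) (by intro x; unfold q2; ring)
    · exact cvx_aff' (1 + 3 * |y - 1|) (V2 y - 2 * (1 + 3 * |y - 1|))
        (by intro x; unfold q3; ring)
  · intro x
    rcases le_total x 0 with h0 | h0
    · have : L x = fun y => V0 y + (-8 * x) * |y| := by
        funext y; rw [L_le0 h0]; unfold q0; ring
      rw [this]
      exact cvx_add cvx_V0 (cvx_smul (by linarith) cvx_abs)
    rcases le_total x 1 with h1 | h1
    · have : L x = fun y => (1 - x) * V0 y + x * V1 y := by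
        funext y; rw [L_01 h0 h1]; rfl
      rw [this]
      exact cvx_add (cvx_smul (by linarith) cvx_V0) (cvx_smul h0 cvx_V1)
    rcases le_total x 2 with h2 | h2
    · have : L x = fun y => (2 - x) * V1 y + (x - 1) * V2 y := by
        funext y; rw [L_12 h1 h2]; rfl
      rw [this]
      exact cvx_add (cvx_smul (by linarith) cvx_V1) (cvx_smul (by linarith) cvx_V2)
    · have : L x = fun y => V2 y + (x - 2) * (1 + 3 * |y - 1|) := by
        funext y; rw [L_ge2 h2]; rfl
      rw [this]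
      exact cvx_add cvx_V2 (cvx_smul (by linarith)
        (cvx_add (convexOn_const _ convex_univ) (cvx_smul (by norm_num) (cvx_abs_sub 1))))

theorem F_cont : Continuous F := by
  unfold F L q0 q1 q2 q3 V0 V1 V2
  fun_prop

/-! ### one-dimensional lemmas -/

theorem kink {φ : ℝ → ℝ} {x a b a3 b3 t s1 s2 : ℝ} (h0 : 0 < t) (h1 : t < 1)
    (hx : x = (1 - t) * a + t * b) (l1 : ∀ u, φ x + s1 * (u - x) ≤ φ u)
    (l2 : ∀ u, φ x + s2 * (u - x) ≤ φ u) (hs : s1 < s2) (ha : φ a ≤ a3) (hb : φ b ≤ b3)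
    (hz : φ x = (1 - t) * a3 + t * b3) : a = b ∧ a3 = b3 := by
  have h1' : 0 < 1 - t := by linarith
  rcases lt_trichotomy a b with h | h | h
  · exfalso
    have e1 := l1 a
    have e2 := l2 b
    have e3 : 0 < t * (1 - t) * (b - a) * (s2 - s1) :=
      mul_pos (mul_pos (mul_pos h0 h1') (by linarith)) (by linarith)
    have e4 := mul_le_mul_of_nonneg_left (le_trans e1 ha) h1'.le
    have e5 := mul_le_mul_of_nonneg_left (le_trans e2 hb) h0.le
    have e6 : (1 - t) * (φ x + s1 * (a - x)) + t * (φ x + s2 * (b - x)) =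
        φ x + t * (1 - t) * (b - a) * (s2 - s1) := by rw [hx]; ring
    linarith
  · subst h
    have hxa : x = a := by rw [hx]; ring
    subst hxa
    refine ⟨rfl, ?_⟩
    have e1 : (1 - t) * (a3 - φ x) + t * (b3 - φ x) = 0 := by linarith
    have e2 : 0 ≤ (1 - t) * (a3 - φ x) := mul_nonneg h1'.le (by linarith)
    have e3 : 0 ≤ t * (b3 - φ x) := mul_nonneg h0.le (by linarith)
    have e4 : (1 - t) * (a3 - φ x) = 0 := by linarith
    have e5 : t * (b3 - φ x) = 0 := by linarith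
    rcases mul_eq_zero.mp e4 with h | h
    · linarith
    rcases mul_eq_zero.mp e5 with h' | h'
    · linarith
    linarith
  · exfalso
    have e1 := l2 a
    have e2 := l1 b
    have e3 : 0 < t * (1 - t) * (a - b) * (s2 - s1) :=
      mul_pos (mul_pos (mul_pos h0 h1') (by linarith)) (by linarith)
    have e4 := mul_le_mul_of_nonneg_left (le_trans e1 ha) h1'.le
    have e5 := mul_le_mul_of_nonneg_left (le_trans e2 hb) h0.le
    have e6 : (1 - t) * (φ x + s2 * (a - x)) + t * (φ x + s1 * (b - x)) =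
        φ x + t * (1 - t) * (a - b) * (s2 - s1) := by rw [hx]; ring
    linarith

theorem flat {φ : ℝ → ℝ} {x a b a3 b3 t s : ℝ} (h0 : 0 < t) (h1 : t < 1)
    (hx : x = (1 - t) * a + t * b) (l1 : ∀ u, φ x + s * (u - x) ≤ φ u)
    (ha : φ a ≤ a3) (hb : φ b ≤ b3) (hz : φ x = (1 - t) * a3 + t * b3) :
    a3 = φ x + s * (a - x) ∧ b3 = φ x + s * (b - x) := by
  have h1' : 0 < 1 - t := by linarith
  have e1 : (1 - t) * (a3 - (φ x + s * (a - x))) + t * (b3 - (φ x + s * (b - x))) = 0 := by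
    have : (1 - t) * (a3 - (φ x + s * (a - x))) + t * (b3 - (φ x + s * (b - x))) =
      (1 - t) * a3 + t * b3 - φ x - s * ((1 - t) * a + t * b - x) := by ring
    rw [this, ← hz, ← hx]; ring
  have e2 : 0 ≤ (1 - t) * (a3 - (φ x + s * (a - x))) := mul_nonneg h1'.le (by linarith [l1 a])
  have e3 : 0 ≤ t * (b3 - (φ x + s * (b - x))) := mul_nonneg h0.le (by linarith [l1 b])
  have e4 : (1 - t) * (a3 - (φ x + s * (a - x))) = 0 := by linarith
  have e5 : t * (b3 - (φ x + s * (b - x))) = 0 := by linarith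
  constructor
  · rcases mul_eq_zero.mp e4 with h | h <;> linarith
  · rcases mul_eq_zero.mp e5 with h | h <;> linarith

theorem flat_up {φ : ℝ → ℝ} {x a b a3 b3 t s e : ℝ} (h0 : 0 < t) (h1 : t < 1)
    (hx : x = (1 - t) * a + t * b) (l1 : ∀ u, φ x + s * (u - x) ≤ φ u)
    (l2 : ∀ u, φ u ≤ φ x + s * (u - x) → u ≤ e)
    (ha : φ a ≤ a3) (hb : φ b ≤ b3) (hz : φ x = (1 - t) * a3 + t * b3) :
    (a = b ∧ a3 = b3) ∨ (x < a ∧ a ≤ e ∧ a3 = φ x + s * (a - x)) ∨
      (x < b ∧ b ≤ e ∧ b3 = φ x + s * (b - x)) := by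
  have h1' : 0 < 1 - t := by linarith
  obtain ⟨ea, eb⟩ := flat h0 h1 hx l1 ha hb hz
  rcases lt_trichotomy a b with h | h | h
  · right; right
    have : 0 < (1 - t) * (b - a) := mul_pos h1' (by linarith)
    refine ⟨by rw [hx]; linarith, l2 b (by linarith), eb⟩
  · left
    subst h
    exact ⟨rfl, by rw [ea, eb]⟩
  · right; left
    have : 0 < t * (a - b) := mul_pos h0 (by linarith)
    refine ⟨by rw [hx]; linarith, l2 a (by linarith), ea⟩

theorem flat_dn {φ : ℝ → ℝ} {x a b a3 b3 t s e : ℝ} (h0 : 0 < t) (h1 : t < 1)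
    (hx : x = (1 - t) * a + t * b) (l1 : ∀ u, φ x + s * (u - x) ≤ φ u)
    (l2 : ∀ u, φ u ≤ φ x + s * (u - x) → e ≤ u)
    (ha : φ a ≤ a3) (hb : φ b ≤ b3) (hz : φ x = (1 - t) * a3 + t * b3) :
    (a = b ∧ a3 = b3) ∨ (a < x ∧ e ≤ a ∧ a3 = φ x + s * (a - x)) ∨
      (b < x ∧ e ≤ b ∧ b3 = φ x + s * (b - x)) := by
  have h1' : 0 < 1 - t := by linarith
  obtain ⟨ea, eb⟩ := flat h0 h1 hx l1 ha hb hz
  rcases lt_trichotomy a b with h | h | h
  · right; left
    have : 0 < t * (b - a) := mul_pos h0 (by linarith)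
    refine ⟨by rw [hx]; linarith, l2 a (by linarith), ea⟩
  · left
    subst h
    exact ⟨rfl, by rw [ea, eb]⟩
  · right; right
    have : 0 < (1 - t) * (a - b) := mul_pos h1' (by linarith)
    refine ⟨by rw [hx]; linarith, l2 b (by linarith), eb⟩

end Pool.Agent.R783.T4
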