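import Pool.Agent.R783.T4.Ext

/-!
# Compact sets missing the hexagon
-/

namespace Pool.Agent.R783.T4

open Set

/-- position on the hexagon -/
noncomputable def th (p : V) : ℝ :=
  if p.1 = 0 ∧ p.2.1 ≠ 0 then 6 - p.2.1 / 2
  else if p.2.1 = 0 then p.1 / 2
  else if p.1 = 2 then 1 + p.2.1
  else if p.2.1 = 1 then 4 - p.1
  else if p.1 = 1 then 2 + p.2.1
  else 5 - p.1

theorem th_e1 {p : V} (h : p.2.1 = 0) : th p = p.1 / 2 := by
  unfold th
  rw [if_neg (by rintro ⟨-, h'⟩; exact h' h), if_pos h]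

theorem th_e2 {p : V} (h : p.1 = 2) : th p = 1 + p.2.1 := by
  unfold th
  rw [if_neg (by rintro ⟨h', -⟩; rw [h] at h'; norm_num at h')]
  by_cases h0 : p.2.1 = 0
  · rw [if_pos h0, h, h0]; norm_num
  · rw [if_neg h0, if_pos h]

theorem th_e3 {p : V} (h : p.2.1 = 1) (h1 : 1 ≤ p.1) : th p = 4 - p.1 := by
  unfold th
  rw [if_neg (by rintro ⟨h', -⟩; rw [h'] at h1; norm_num at h1),
    if_neg (by rw [h]; norm_num)]
  by_cases h2 : p.1 = 2
  · rw [if_pos h2, h2, h]; norm_num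
  · rw [if_neg h2, if_pos h]

theorem th_e4 {p : V} (h : p.1 = 1) (h1 : 1 ≤ p.2.1) : th p = 2 + p.2.1 := by
  unfold th
  rw [if_neg (by rintro ⟨h', -⟩; rw [h] at h'; norm_num at h'),
    if_neg (by intro h'; rw [h'] at h1; norm_num at h1), if_neg (by rw [h]; norm_num)]
  by_cases h2 : p.2.1 = 1
  · rw [if_pos h2, h2, h]; norm_num
  · rw [if_neg h2, if_pos h]

theorem th_e5 {p : V} (h : p.2.1 = 2) (h1 : p.1 ≤ 1) : th p = 5 - p.1 := by
  unfold th
  by_cases h0 : p.1 = 0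
  · rw [if_pos ⟨h0, by rw [h]; norm_num⟩, h, h0]; norm_num
  · rw [if_neg (by rintro ⟨h', -⟩; exact h0 h'), if_neg (by rw [h]; norm_num),
      if_neg (by intro h'; rw [h'] at h1; norm_num at h1), if_neg (by rw [h]; norm_num)]
    by_cases h2 : p.1 = 1
    · rw [if_pos h2, h2, h]; norm_num
    · rw [if_neg h2]

theorem th_e6 {p : V} (h : p.1 = 0) (h1 : p.2.1 ≠ 0) : th p = 6 - p.2.1 / 2 := by
  unfold th
  rw [if_pos ⟨h, h1⟩]

theorem th_step {p q : V} (h : p = q ∨ Fw p q) :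
    ∃ δ : ℝ, 0 ≤ δ ∧ δ ≤ 1 ∧ (th q = th p + δ ∨ th q = th p + δ - 6) ∧ (δ = 0 → p = q) := by
  rcases h with h | h
  · subst h
    exact ⟨0, le_rfl, by norm_num, Or.inl (by ring), fun _ => rfl⟩
  rcases h with h | h | h | h | h | h
  · obtain ⟨a, b, -, c, d, e⟩ := h
    exact ⟨(q.1 - p.1) / 2, by linarith, by linarith,
      Or.inl (by rw [th_e1 a, th_e1 b]; ring), fun h => by exfalso; linarith⟩
  · obtain ⟨a, b, -, c, d, e⟩ := h
    exact ⟨q.2.1 - p.2.1, by linarith, by linarith,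
      Or.inl (by rw [th_e2 a, th_e2 b]; ring), fun h => by exfalso; linarith⟩
  · obtain ⟨a, b, -, c, d, e⟩ := h
    exact ⟨p.1 - q.1, by linarith, by linarith,
      Or.inl (by rw [th_e3 a (by linarith), th_e3 b c]; ring), fun h => by exfalso; linarith⟩
  · obtain ⟨a, b, -, c, d, e⟩ := h
    exact ⟨q.2.1 - p.2.1, by linarith, by linarith,
      Or.inl (by rw [th_e4 a c, th_e4 b (by linarith)]; ring), fun h => by exfalso; linarith⟩
  · obtain ⟨a, b, -, c, d, e⟩ := h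
    exact ⟨p.1 - q.1, by linarith, by linarith,
      Or.inl (by rw [th_e5 a e, th_e5 b (by linarith)]; ring), fun h => by exfalso; linarith⟩
  · obtain ⟨a, b, -, c, d, e⟩ := h
    refine ⟨(p.2.1 - q.2.1) / 2, by linarith, by linarith, ?_, fun h => by exfalso; linarith⟩
    rw [th_e6 a (by intro h; rw [h] at d; linarith)]
    by_cases h0 : q.2.1 = 0
    · right
      rw [th_e1 h0, b, h0]; ring
    · left
      rw [th_e6 b h0]; ring

theorem cycle_eq {a b c d : V} (h1 : a = b ∨ Fw a b) (h2 : b = c ∨ Fw b c)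
    (h3 : c = d ∨ Fw c d) (h4 : d = a ∨ Fw d a) : a = b ∧ b = c ∧ c = d := by
  obtain ⟨δ1, p1, r1, e1, k1⟩ := th_step h1
  obtain ⟨δ2, p2, r2, e2, k2⟩ := th_step h2
  obtain ⟨δ3, p3, r3, e3, k3⟩ := th_step h3
  obtain ⟨δ4, p4, r4, e4, k4⟩ := th_step h4
  have : δ1 + δ2 + δ3 + δ4 = 0 := by
    rcases e1 with e1 | e1 <;> rcases e2 with e2 | e2 <;> rcases e3 with e3 | e3 <;>
      rcases e4 with e4 | e4 <;> linarith
  exact ⟨k1 (by linarith), k2 (by linarith), k3 (by linarith)⟩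

/-- `S` is compact, lies in `{F ≤ 0}` and misses the hexagon -/
def Good (S : Set V) : Prop := IsCompact S ∧ (∀ p ∈ S, F p ≤ 0) ∧ ∀ p ∈ S, ¬ onZ p

theorem Good.union {S T : Set V} (hS : Good S) (hT : Good T) : Good (S ∪ T) :=
  ⟨hS.1.union hT.1, fun p hp => hp.elim (hS.2.1 p) (hT.2.1 p),
    fun p hp => hp.elim (hS.2.2 p) (hT.2.2 p)⟩

/-- one lamination step -/
def Sg (S : Set V) : Set V :=
  {p | ∃ A ∈ S, ∃ B ∈ S, Conn A B ∧ ∃ t : ℝ, 0 ≤ t ∧ t ≤ 1 ∧ p = (1 - t) • A + t • B}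

theorem subset_Sg (S : Set V) : S ⊆ Sg S := fun p hp =>
  ⟨p, hp, p, hp, Or.inl rfl, 0, le_rfl, by norm_num, by simp⟩

theorem Sg_mono {S T : Set V} (h : S ⊆ T) : Sg S ⊆ Sg T := by
  rintro p ⟨A, hA, B, hB, r⟩
  exact ⟨A, h hA, B, h hB, r⟩

theorem F_seg {A B : V} (h : Conn A B) {t : ℝ} (h0 : 0 ≤ t) (h1 : t ≤ 1) (hA : F A ≤ 0)
    (hB : F B ≤ 0) : F ((1 - t) • A + t • B) ≤ 0 := by
  have := roc_ineq F_roc h h0 h1
  have g1 : (1 - t) * F A ≤ 0 := mul_nonpos_of_nonneg_of_nonpos (by linarith) hA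
  have g2 : t * F B ≤ 0 := mul_nonpos_of_nonneg_of_nonpos h0 hB
  linarith

/-- if a point of a rank-one segment in `{F ≤ 0}` is on the hexagon, one of the ends is -/
theorem ext_or {A B : V} (h : Conn A B) {t : ℝ} (h0 : 0 ≤ t) (h1 : t ≤ 1) (hA : F A ≤ 0)
    (hB : F B ≤ 0) (hp : onZ ((1 - t) • A + t • B)) : onZ A ∨ onZ B := by
  rcases eq_or_lt_of_le h0 with e | e
  · subst e
    left; simpa using hp
  rcases eq_or_lt_of_le h1 with e' | e'
  · subst e'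
    right; simpa using hp
  rcases ext_main hp e e' rfl h hA hB with h' | h' | h'
  · subst h'
    have : (1 - t) • A + t • A = A := by rw [← add_smul]; simp
    rw [this] at hp
    exact Or.inl hp
  · exact Or.inl h'.onZ
  · exact Or.inr h'.onZ

theorem good_Sg {S : Set V} (hS : Good S) : Good (Sg S) := by
  refine ⟨?_, ?_, ?_⟩
  · have hc : IsCompact (S ×ˢ (S ×ˢ (Icc (0:ℝ) 1))) := hS.1.prod (hS.1.prod isCompact_Icc)
    have hcl : IsClosed {q : V × (V × ℝ) | q.1.1 = q.2.1.1 ∨ q.1.2.1 = q.2.1.2.1} := by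
      apply IsClosed.union
      · exact isClosed_eq (by fun_prop) (by fun_prop)
      · exact isClosed_eq (by fun_prop) (by fun_prop)
    have him := (hc.inter_right hcl).image
      (f := fun q : V × (V × ℝ) => (1 - q.2.2) • q.1 + q.2.2 • q.2.1) (by fun_prop)
    convert him using 1
    ext p
    constructor
    · rintro ⟨A, hA, B, hB, hc, t, h0, h1, rfl⟩
      exact ⟨(A, (B, t)), ⟨⟨hA, hB, h0, h1⟩, hc⟩, rfl⟩
    · rintro ⟨⟨A, B, t⟩, ⟨⟨hA, hB, h0, h1⟩, hc⟩, rfl⟩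
      exact ⟨A, hA, B, hB, hc, t, h0, h1, rfl⟩
  · rintro p ⟨A, hA, B, hB, hc, t, h0, h1, rfl⟩
    exact F_seg hc h0 h1 (hS.2.1 A hA) (hS.2.1 B hB)
  · rintro p ⟨A, hA, B, hB, hc, t, h0, h1, rfl⟩ hp
    rcases ext_or hc h0 h1 (hS.2.1 A hA) (hS.2.1 B hB) hp with h | h
    · exact hS.2.2 A hA h
    · exact hS.2.2 B hB h


/-- the closed relation describing the points on the inner bilinear patch of an alternating `T4`
with corners in `S`; `w` are the weights of `P0` in terms of the `A j`, and `s` the position of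
`P_{j+1}` on the segment from `P_j` to `A_j`. -/
def WRel (A : Fin 4 → V) (w s : Fin 4 → ℝ) (P0 P1 P2 P3 : V) : Prop :=
  P0 = w 0 • A 0 + w 1 • A 1 + w 2 • A 2 + w 3 • A 3 ∧
  P1 = (1 - s 0) • P0 + s 0 • A 0 ∧ P2 = (1 - s 1) • P1 + s 1 • A 1 ∧
  P3 = (1 - s 2) • P2 + s 2 • A 2 ∧ P0 = (1 - s 3) • P3 + s 3 • A 3 ∧
  (A 0).2.1 = P0.2.1 ∧ (A 1).1 = P1.1 ∧ (A 2).2.1 = P2.2.1 ∧ (A 3).1 = P3.1 ∧ F P0 ≤ 0

def W (S : Set V) : Set V :=
  {p | ∃ (A : Fin 4 → V) (w s : Fin 4 → ℝ) (P0 P1 P2 P3 : V) (a b : ℝ),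
    (∀ j, A j ∈ S) ∧ w ∈ stdSimplex ℝ (Fin 4) ∧ (∀ j, s j ∈ Icc (0:ℝ) 1) ∧
    a ∈ Icc (0:ℝ) 1 ∧ b ∈ Icc (0:ℝ) 1 ∧ WRel A w s P0 P1 P2 P3 ∧
    p = (1 - a) • ((1 - b) • P0 + b • P3) + a • ((1 - b) • P1 + b • P2)}

/-- the composite maps -/
def g0 (q : (Fin 4 → V) × (Fin 4 → ℝ) × (Fin 4 → ℝ) × ℝ × ℝ) : V :=
  q.2.1 0 • q.1 0 + q.2.1 1 • q.1 1 + q.2.1 2 • q.1 2 + q.2.1 3 • q.1 3
def g1 (q : (Fin 4 → V) × (Fin 4 → ℝ) × (Fin 4 → ℝ) × ℝ × ℝ) : V :=
  (1 - q.2.2.1 0) • g0 q + q.2.2.1 0 • q.1 0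
def g2 (q : (Fin 4 → V) × (Fin 4 → ℝ) × (Fin 4 → ℝ) × ℝ × ℝ) : V :=
  (1 - q.2.2.1 1) • g1 q + q.2.2.1 1 • q.1 1
def g3 (q : (Fin 4 → V) × (Fin 4 → ℝ) × (Fin 4 → ℝ) × ℝ × ℝ) : V :=
  (1 - q.2.2.1 2) • g2 q + q.2.2.1 2 • q.1 2

theorem g0_cont : Continuous g0 := by unfold g0; fun_prop
theorem g1_cont : Continuous g1 := by
  have := g0_cont
  unfold g1; fun_prop
theorem g2_cont : Continuous g2 := by
  have := g1_cont
  unfold g2; fun_prop
theorem g3_cont : Continuous g3 := by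
  have := g2_cont
  unfold g3; fun_prop

theorem W_compact {S : Set V} (hS : IsCompact S) : IsCompact (W S) := by
  have c0 := g0_cont
  have c1 := g1_cont
  have c2 := g2_cont
  have c3 := g3_cont
  have cF := F_cont
  have hc : IsCompact ((Set.pi univ (fun _ : Fin 4 => S)) ×ˢ ((stdSimplex ℝ (Fin 4)) ×ˢ
      ((Set.pi univ (fun _ : Fin 4 => Icc (0:ℝ) 1)) ×ˢ (Icc (0:ℝ) 1 ×ˢ Icc (0:ℝ) 1)))) :=
    (isCompact_univ_pi (fun _ => hS)).prod ((isCompact_stdSimplex ℝ (Fin 4)).prod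
      ((isCompact_univ_pi (fun _ => isCompact_Icc)).prod (isCompact_Icc.prod isCompact_Icc)))
  have hcl : IsClosed {q : (Fin 4 → V) × (Fin 4 → ℝ) × (Fin 4 → ℝ) × ℝ × ℝ |
      g0 q = (1 - q.2.2.1 3) • g3 q + q.2.2.1 3 • q.1 3 ∧
      (q.1 0).2.1 = (g0 q).2.1 ∧ (q.1 1).1 = (g1 q).1 ∧ (q.1 2).2.1 = (g2 q).2.1 ∧
      (q.1 3).1 = (g3 q).1 ∧ F (g0 q) ≤ 0} := by
    refine IsClosed.and (isClosed_eq (by fun_prop) (by fun_prop)) ?_
    refine IsClosed.and (isClosed_eq (by fun_prop) (by fun_prop)) ?_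
    refine IsClosed.and (isClosed_eq (by fun_prop) (by fun_prop)) ?_
    refine IsClosed.and (isClosed_eq (by fun_prop) (by fun_prop)) ?_
    refine IsClosed.and (isClosed_eq (by fun_prop) (by fun_prop)) ?_
    exact isClosed_le (by fun_prop) (by fun_prop)
  have him := (hc.inter_right hcl).image
    (f := fun q : (Fin 4 → V) × (Fin 4 → ℝ) × (Fin 4 → ℝ) × ℝ × ℝ =>
      (1 - q.2.2.2.1) • ((1 - q.2.2.2.2) • g0 q + q.2.2.2.2 • g3 q) +
        q.2.2.2.1 • ((1 - q.2.2.2.2) • g1 q + q.2.2.2.2 • g2 q)) (by fun_prop)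
  convert him using 1
  ext p
  constructor
  · rintro ⟨A, w, s, P0, P1, P2, P3, a, b, hA, hw, hs, ha, hb,
      ⟨e0, e1, e2, e3, e4, e5, e6, e7, e8, e9⟩, rfl⟩
    subst e1
    subst e2
    subst e3
    subst e0
    refine ⟨(A, w, s, a, b), ⟨⟨fun j _ => hA j, hw, fun j _ => hs j, ha, hb⟩, ?_⟩, rfl⟩
    exact ⟨e4, e5, e6, e7, e8, e9⟩
  · rintro ⟨⟨A, w, s, a, b⟩, ⟨⟨hA, hw, hs, ha, hb⟩, h4, h5, h6, h7, h8, h9⟩, rfl⟩
    exact ⟨A, w, s, _, _, _, _, a, b, fun j => hA j (mem_univ j), hw, fun j => hs j (mem_univ j),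
      ha, hb, ⟨rfl, rfl, rfl, rfl, h4, h5, h6, h7, h8, h9⟩, rfl⟩

theorem back_step {S : Set V} (hS : Good S) {P P' A : V} {s : ℝ} (hs : s ∈ Icc (0:ℝ) 1)
    (hA : A ∈ S) (hP' : P' = (1 - s) • P + s • A) (hc : Conn P A) (hFP : F P ≤ 0)
    (hz : onZ P') : onZ P ∧ (P' = P ∨ Fw P' P) := by
  rcases eq_or_lt_of_le hs.1 with e | e
  · subst e
    have : P' = P := by rw [hP']; simp
    exact ⟨this ▸ hz, Or.inl this⟩
  rcases eq_or_lt_of_le hs.2 with e' | e'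
  · subst e'
    exfalso
    have : P' = A := by rw [hP']; simp
    exact hS.2.2 A hA (this ▸ hz)
  rcases ext_main hz e e' hP' hc hFP (hS.2.1 A hA) with h | h | h
  · exfalso
    subst h
    have : P' = P := by rw [hP', ← add_smul]; simp
    exact hS.2.2 P hA (this ▸ hz)
  · exact ⟨h.onZ, Or.inr h⟩
  · exfalso
    exact hS.2.2 A hA h.onZ

theorem good_W {S : Set V} (hS : Good S) : Good (W S) := by
  have key : ∀ p ∈ W S, F p ≤ 0 ∧ ¬ onZ p := by
    rintro p ⟨A, w, s, P0, P1, P2, P3, a, b, hA, hw, hs, ha, hb,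
      ⟨e0, e1, e2, e3, e4, e5, e6, e7, e8, e9⟩, hp⟩
    have k1 : P1.2.1 = P0.2.1 := by
      rw [e1]
      simp only [Prod.fst_add, Prod.snd_add, Prod.smul_fst, Prod.smul_snd, smul_eq_mul]
      rw [e5]; ring
    have k2 : P2.1 = P1.1 := by
      rw [e2]
      simp only [Prod.fst_add, Prod.smul_fst, smul_eq_mul]
      rw [e6]; ring
    have k3 : P3.2.1 = P2.2.1 := by
      rw [e3]
      simp only [Prod.fst_add, Prod.snd_add, Prod.smul_fst, Prod.smul_snd, smul_eq_mul]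
      rw [e7]; ring
    have k4 : P0.1 = P3.1 := by
      rw [e4]
      simp only [Prod.fst_add, Prod.smul_fst, smul_eq_mul]
      rw [e8]; ring
    have c0 : Conn P0 (A 0) := Or.inr e5.symm
    have c1 : Conn P1 (A 1) := Or.inl e6.symm
    have c2 : Conn P2 (A 2) := Or.inr e7.symm
    have c3 : Conn P3 (A 3) := Or.inl e8.symm
    have F0 := e9
    have F1 : F P1 ≤ 0 := by
      rw [e1]; exact F_seg c0 (hs 0).1 (hs 0).2 F0 (hS.2.1 _ (hA 0))
    have F2 : F P2 ≤ 0 := by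
      rw [e2]; exact F_seg c1 (hs 1).1 (hs 1).2 F1 (hS.2.1 _ (hA 1))
    have F3 : F P3 ≤ 0 := by
      rw [e3]; exact F_seg c2 (hs 2).1 (hs 2).2 F2 (hS.2.1 _ (hA 2))
    have cL : Conn P0 P3 := Or.inl k4
    have cR : Conn P1 P2 := Or.inl k2.symm
    have FL := F_seg cL hb.1 hb.2 F0 F3
    have FR := F_seg cR hb.1 hb.2 F1 F2
    have cLR : Conn ((1 - b) • P0 + b • P3) ((1 - b) • P1 + b • P2) := by
      right
      simp only [Prod.fst_add, Prod.snd_add, Prod.smul_fst, Prod.smul_snd, smul_eq_mul]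
      rw [k1, k3]
    refine ⟨by rw [hp]; exact F_seg cLR ha.1 ha.2 FL FR, ?_⟩
    intro hz
    rw [hp] at hz
    have h4 : onZ P0 ∨ onZ P1 ∨ onZ P2 ∨ onZ P3 := by
      rcases ext_or cLR ha.1 ha.2 FL FR hz with h | h
      · rcases ext_or cL hb.1 hb.2 F0 F3 h with h | h
        · exact Or.inl h
        · exact Or.inr (Or.inr (Or.inr h))
      · rcases ext_or cR hb.1 hb.2 F1 F2 h with h | h
        · exact Or.inr (Or.inl h)
        · exact Or.inr (Or.inr (Or.inl h))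
    have s0 : onZ P1 → onZ P0 ∧ (P1 = P0 ∨ Fw P1 P0) :=
      back_step hS (hs 0) (hA 0) e1 c0 F0
    have s1 : onZ P2 → onZ P1 ∧ (P2 = P1 ∨ Fw P2 P1) :=
      back_step hS (hs 1) (hA 1) e2 c1 F1
    have s2 : onZ P3 → onZ P2 ∧ (P3 = P2 ∨ Fw P3 P2) :=
      back_step hS (hs 2) (hA 2) e3 c2 F2
    have s3 : onZ P0 → onZ P3 ∧ (P0 = P3 ∨ Fw P0 P3) :=
      back_step hS (hs 3) (hA 3) e4 c3 F3
    have hz0 : onZ P0 := by
      rcases h4 with h | h | h | h
      · exact h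
      · exact (s0 h).1
      · exact (s0 (s1 h).1).1
      · exact (s0 (s1 (s2 h).1).1).1
    obtain ⟨z3, r3⟩ := s3 hz0
    obtain ⟨z2, r2⟩ := s2 z3
    obtain ⟨z1, r1⟩ := s1 z2
    obtain ⟨-, r0⟩ := s0 z1
    obtain ⟨q1, q2, q3⟩ := cycle_eq r3 r2 r1 r0
    -- all equal
    subst q1
    subst q2
    subst q3
    -- now the point P0 on the hexagon is a combination of the A j
    have hw0 := hw.1 0
    have hw1 := hw.1 1
    have hw2 := hw.1 2
    have hw3 := hw.1 3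
    have hsum := hw.2
    rw [Fin.sum_univ_four] at hsum
    have hSg := good_Sg hS
    have hSgSg := good_Sg hSg
    have ex : P0.1 = w 0 * (A 0).1 + w 1 * (A 1).1 + w 2 * (A 2).1 + w 3 * (A 3).1 := by
      conv_lhs => rw [e0]
      simp only [Prod.fst_add, Prod.smul_fst, smul_eq_mul]
    have eP : P0 ∈ Sg (Sg S) := by
      rcases eq_or_lt_of_le (add_nonneg hw0 hw2) with u | u
      · have w0 : w 0 = 0 := by linarith
        have w2 : w 2 = 0 := by linarith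
        apply subset_Sg
        refine ⟨A 1, hA 1, A 3, hA 3, Or.inl (by rw [e6, e8]), w 3, hw3, by linarith, ?_⟩
        have : w 1 = 1 - w 3 := by linarith
        rw [← this]
        conv_lhs => rw [e0]
        rw [w0, w2]; simp
      rcases eq_or_lt_of_le (add_nonneg hw1 hw3) with u' | u'
      · have w1 : w 1 = 0 := by linarith
        have w3 : w 3 = 0 := by linarith
        apply subset_Sg
        refine ⟨A 0, hA 0, A 2, hA 2, Or.inr (by rw [e5, e7]), w 2, hw2, by linarith, ?_⟩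
        have : w 0 = 1 - w 2 := by linarith
        rw [← this]
        conv_lhs => rw [e0]
        rw [w1, w3]; simp
      set m := w 0 + w 2 with hm
      set n := w 1 + w 3 with hn
      have hmn : m = 1 - n := by linarith
      refine ⟨(w 0 / m) • A 0 + (w 2 / m) • A 2, ?_, (w 1 / n) • A 1 + (w 3 / n) • A 3, ?_,
        ?_, n, u'.le, by linarith, ?_⟩
      · refine ⟨A 0, hA 0, A 2, hA 2, Or.inr (by rw [e5, e7]), w 2 / m, by positivity,
          by rw [div_le_one u]; linarith, ?_⟩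
        have : w 0 / m = 1 - w 2 / m := by field_simp; linarith
        rw [this]
      · refine ⟨A 1, hA 1, A 3, hA 3, Or.inl (by rw [e6, e8]), w 3 / n, by positivity,
          by rw [div_le_one u']; linarith, ?_⟩
        have : w 1 / n = 1 - w 3 / n := by field_simp; linarith
        rw [this]
      · left
        simp only [Prod.fst_add, Prod.smul_fst, smul_eq_mul]
        have g1 : w 1 / n * (A 1).1 + w 3 / n * (A 3).1 = P0.1 := by
          rw [e6, e8]; field_simp; rw [hn]; ring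
        rw [g1]
        have : w 0 * (A 0).1 + w 2 * (A 2).1 = m * P0.1 := by
          rw [e6, e8] at ex
          linear_combination (-1) * ex - P0.1 * hmn + P0.1 * hn
        field_simp
        linarith
      · rw [← hmn]
        conv_lhs => rw [e0]
        simp only [smul_add, smul_smul]
        rw [mul_div_cancel₀ _ u.ne', mul_div_cancel₀ _ u.ne', mul_div_cancel₀ _ u'.ne',
          mul_div_cancel₀ _ u'.ne']
        abel
    exact hSgSg.2.2 P0 eP hz0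
  exact ⟨W_compact hS.1, fun p hp => (key p hp).1, fun p hp => (key p hp).2⟩

end Pool.Agent.R783.T4
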