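import Pool.Agent.R783.T4.Alt

/-!
# The six-point set
-/

namespace Pool.Agent.R783.T4

open Set

/-- The rank-one convex hull: `f A ≤ 0` for every rank-one convex `f` vanishing on `K`. -/
def convRC (K : Set V) : Set V :=
  {A | ∀ f : V → ℝ, RankOneConvex f → (∀ k ∈ K, f k = 0) → f A ≤ 0}

/-- The rank-one convex hull: for every rank-one convex `f`, the value `f A` is at most the maximum
of `f` on `K` (stated as: at most one of the values of `f` on `K`). -/
def convRCmax (K : Set V) : Set V :=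
  {A | ∀ f : V → ℝ, RankOneConvex f → ∃ k ∈ K, f A ≤ f k}

/-- One step of the iteration without keeping `S` itself: the hulls of all `T4` configurations in
`S` and all rank-one segments with both end points in `S`. -/
def stepIn (H : Set V → Set V) (S : Set V) : Set V :=
  {p | ∃ A : Fin 4 → V, (∀ j, A j ∈ S) ∧ IsT4 A ∧ p ∈ H (Set.range A)} ∪
    {p | ∃ A ∈ S, ∃ B ∈ S, RankOneDir (B - A) ∧ p ∈ segment ℝ A B}

theorem hl_of_convRC {A : Fin 4 → V} {p : V} (hp : p ∈ convRC (Set.range A)) :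
    Hl (A 0) (A 1) (A 2) (A 3) p := by
  intro f hf h0 h1 h2 h3
  have := hp _ (roc_sup hf (roc_const 0)) (by
    rintro k ⟨j, rfl⟩
    fin_cases j
    · exact max_eq_right h0
    · exact max_eq_right h1
    · exact max_eq_right h2
    · exact max_eq_right h3)
  exact le_trans (le_max_left _ _) this

theorem hl_of_convRCmax {A : Fin 4 → V} {p : V} (hp : p ∈ convRCmax (Set.range A)) :
    Hl (A 0) (A 1) (A 2) (A 3) p := by
  intro f hf h0 h1 h2 h3
  obtain ⟨k, ⟨j, rfl⟩, hk⟩ := hp f hf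
  refine le_trans hk ?_
  fin_cases j
  · exact h0
  · exact h1
  · exact h2
  · exact h3

theorem step_good {H : Set V → Set V}
    (hH : ∀ (A : Fin 4 → V) (p : V), p ∈ H (Set.range A) → Hl (A 0) (A 1) (A 2) (A 3) p)
    {S : Set V} (hS : Good S) : ∃ S', Good S' ∧ step H S ⊆ S' := by
  refine ⟨Sg (Sg (Sg S)) ∪ Sg (S ∪ W S),
    (good_Sg (good_Sg (good_Sg hS))).union (good_Sg (hS.union (good_W hS))), ?_⟩
  rintro p ((hp | ⟨A, hA, hT, hp⟩) | ⟨A, hA, B, hB, hAB, hp⟩)
  · exact Or.inl (subset_Sg _ (subset_Sg _ (subset_Sg _ hp)))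
  · exact t4_hull hS.2.1 hA hT (hH A p hp)
  · left
    apply subset_Sg
    apply subset_Sg
    rw [segment_eq_image] at hp
    obtain ⟨t, ht, rfl⟩ := hp
    refine ⟨A, hA, B, hB, ?_, t, ht.1, ht.2, rfl⟩
    rcases mul_eq_zero.mp hAB.2 with h | h
    · left
      simp only [Prod.fst_sub] at h
      linarith
    · right
      simp only [Prod.fst_sub, Prod.snd_sub] at h
      linarith

theorem stepIn_mono (H : Set V → Set V) {S T : Set V} (h : S ⊆ T) : stepIn H S ⊆ stepIn H T := by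
  rintro p (⟨A, hA, hT, hp⟩ | ⟨A, hA, B, hB, hAB, hp⟩)
  · exact Or.inl ⟨A, fun j => h (hA j), hT, hp⟩
  · exact Or.inr ⟨A, h hA, B, h hB, hAB, hp⟩

theorem step_eq (H : Set V → Set V) (S : Set V) : step H S = S ∪ stepIn H S := by
  unfold step stepIn
  rw [union_assoc]

theorem step_mono (H : Set V → Set V) {S T : Set V} (h : S ⊆ T) : step H S ⊆ step H T := by
  rw [step_eq, step_eq]
  exact union_subset_union h (stepIn_mono H h)

theorem iter_good {H : Set V → Set V}
    (hH : ∀ (A : Fin 4 → V) (p : V), p ∈ H (Set.range A) → Hl (A 0) (A 1) (A 2) (A 3) p)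
    {K : Set V} (hK : Good K) (i : ℕ) : ∃ S', Good S' ∧ iter H K i ⊆ S' := by
  induction i with
  | zero => exact ⟨K, hK, subset_rfl⟩
  | succ i ih =>
    obtain ⟨S, hS, hi⟩ := ih
    obtain ⟨S', hS', h'⟩ := step_good hH hS
    refine ⟨S', hS', ?_⟩
    unfold iter at hi ⊢
    rw [Function.iterate_succ_apply']
    exact (step_mono H hi).trans h'

/-- the six-point set -/
noncomputable def K6 : Finset V :=
  {(-1, 0, 0), (2, -1, 0), (3, 1, 1), (1, 1/2, -2), (3/2, 2, 3/2), (0, 3, 0)}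

theorem mem_K6 {p : V} : p ∈ (K6 : Set V) ↔ p = (-1, 0, 0) ∨ p = (2, -1, 0) ∨ p = (3, 1, 1) ∨
    p = (1, 1/2, -2) ∨ p = (3/2, 2, 3/2) ∨ p = (0, 3, 0) := by
  unfold K6
  simp only [Finset.coe_insert, Finset.coe_singleton, mem_insert_iff, mem_singleton_iff]

theorem K6_card : K6.card = 6 := by
  unfold K6
  rw [Finset.card_insert_of_notMem, Finset.card_insert_of_notMem, Finset.card_insert_of_notMem,
    Finset.card_insert_of_notMem, Finset.card_insert_of_notMem, Finset.card_singleton]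
  all_goals
    simp only [Finset.mem_insert, Finset.mem_singleton, Prod.mk.injEq, not_or]
    norm_num

theorem good_K6 : Good (K6 : Set V) := by
  refine ⟨K6.finite_toSet.isCompact, ?_, ?_⟩
  · intro p hp
    rcases mem_K6.mp hp with rfl | rfl | rfl | rfl | rfl | rfl
    · have : L (-1) 0 = 0 := by
        rw [L_le0 (by norm_num)]; unfold q0; rw [V0_of_nonneg le_rfl]; simp
      show L (-1) 0 - 0 ≤ 0
      rw [this]; norm_num
    · have : L 2 (-1) = 0 := by rw [L_x2, V2_of_le_one (by norm_num)]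
      show L 2 (-1) - 0 ≤ 0
      rw [this]; norm_num
    · have : L 3 1 = 1 := by
        rw [L_ge2 (by norm_num)]; unfold q3; rw [V2_of_le_one le_rfl]; norm_num
      show L 3 1 - 1 ≤ 0
      rw [this]; norm_num
    · have : L 1 (1/2) = -2 := by rw [L_x1, V1_mid le_rfl (by norm_num)]; norm_num
      show L 1 (1/2) - (-2) ≤ 0
      rw [this]; norm_num
    · have : L (3/2) 2 = 3/2 := by
        rw [L_12 (by norm_num) (by norm_num)]; unfold q2
        rw [V1_mid (by norm_num) le_rfl, V2_mid (by norm_num) le_rfl]; norm_num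
      show L (3/2) 2 - 3/2 ≤ 0
      rw [this]; norm_num
    · have : L 0 3 = 0 := by rw [L_x0, V0_of_nonneg (by norm_num)]
      show L 0 3 - 0 ≤ 0
      rw [this]; norm_num
  · intro p hp
    rcases mem_K6.mp hp with rfl | rfl | rfl | rfl | rfl | rfl <;> unfold onZ <;> norm_num

theorem origin_onZ : onZ ((0, 0, 0) : V) := by
  left; norm_num

/-- inequality for one segment, in coordinates -/
theorem seg_ineq {f : V → ℝ} (hf : RankOneConvex f) {A B p : V} (t : ℝ) (h : Conn A B)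
    (h0 : 0 ≤ t) (h1 : t ≤ 1) (hp : p = (1 - t) • A + t • B) :
    f p ≤ (1 - t) * f A + t * f B := by
  rw [hp]; exact roc_ineq hf h h0 h1

theorem origin_mem : ((0, 0, 0) : V) ∈ convRC (K6 : Set V) := by
  intro f hf hK
  have k1 : f (-1, 0, 0) = 0 := hK _ (mem_K6.mpr (by tauto))
  have k2 : f (2, -1, 0) = 0 := hK _ (mem_K6.mpr (by tauto))
  have k3 : f (3, 1, 1) = 0 := hK _ (mem_K6.mpr (by tauto))
  have k4 : f (1, 1/2, -2) = 0 := hK _ (mem_K6.mpr (by tauto))
  have k5 : f (3/2, 2, 3/2) = 0 := hK _ (mem_K6.mpr (by tauto))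
  have k6 : f (0, 3, 0) = 0 := hK _ (mem_K6.mpr (by tauto))
  have s1 := seg_ineq hf (A := (-1, 0, 0)) (B := (2, 0, 0)) (p := (0, 0, 0)) (1/3) (Or.inr rfl)
    (by norm_num) (by norm_num) (by
      simp only [Prod.smul_mk, smul_eq_mul, Prod.mk_add_mk, Prod.mk.injEq]; norm_num)
  have s2 := seg_ineq hf (A := (2, -1, 0)) (B := (2, 1, 0)) (p := (2, 0, 0)) (1/2) (Or.inl rfl)
    (by norm_num) (by norm_num) (by
      simp only [Prod.smul_mk, smul_eq_mul, Prod.mk_add_mk, Prod.mk.injEq]; norm_num)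
  have s3 := seg_ineq hf (A := (3, 1, 1)) (B := (1, 1, -1)) (p := (2, 1, 0)) (1/2) (Or.inr rfl)
    (by norm_num) (by norm_num) (by
      simp only [Prod.smul_mk, smul_eq_mul, Prod.mk_add_mk, Prod.mk.injEq]; norm_num)
  have s4 := seg_ineq hf (A := (1, 1/2, -2)) (B := (1, 2, 1)) (p := (1, 1, -1)) (1/3)
    (Or.inl rfl) (by norm_num) (by norm_num) (by
      simp only [Prod.smul_mk, smul_eq_mul, Prod.mk_add_mk, Prod.mk.injEq]; norm_num)
  have s5 := seg_ineq hf (A := (3/2, 2, 3/2)) (B := (0, 2, 0)) (p := (1, 2, 1)) (1/3)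
    (Or.inr rfl) (by norm_num) (by norm_num) (by
      simp only [Prod.smul_mk, smul_eq_mul, Prod.mk_add_mk, Prod.mk.injEq]; norm_num)
  have s6 := seg_ineq hf (A := (0, 3, 0)) (B := (0, 0, 0)) (p := (0, 2, 0)) (1/3) (Or.inl rfl)
    (by norm_num) (by norm_num) (by
      simp only [Prod.smul_mk, smul_eq_mul, Prod.mk_add_mk, Prod.mk.injEq]; norm_num)
  rw [k1] at s1
  rw [k2] at s2
  rw [k3] at s3
  rw [k4] at s4
  rw [k5] at s5
  rw [k6] at s6
  linarith

/-- **First question.**  A six-point set whose rank-one convex hull contains a point outside all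
`K^(i)`. -/
theorem rc_ne_t4 : ∃ K : Finset V, K.card = 6 ∧
    ∃ p ∈ convRC (K : Set V), ∀ i, p ∉ iter convRC (K : Set V) i := by
  refine ⟨K6, K6_card, (0, 0, 0), origin_mem, ?_⟩
  intro i hi
  obtain ⟨S, hS, hsub⟩ := iter_good (fun A p => hl_of_convRC) good_K6 i
  exact hS.2.2 _ (hsub hi) origin_onZ

/-! ### the second question -/

theorem convRCmax_of_hl {A : Fin 4 → V} {p : V} (h : Hl (A 0) (A 1) (A 2) (A 3) p) :
    p ∈ convRCmax (Set.range A) := by
  intro f hf
  obtain ⟨j, hj⟩ := Finite.exists_max (fun j => f (A j))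
  refine ⟨A j, ⟨j, rfl⟩, ?_⟩
  have hr : RankOneConvex (fun q => f q - f (A j)) := by
    intro B D hD
    have := (hf B D hD).add (convexOn_const (-(f (A j))) convex_univ)
    exact this
  have := h _ hr (sub_nonpos.mpr (hj 0)) (sub_nonpos.mpr (hj 1)) (sub_nonpos.mpr (hj 2))
    (sub_nonpos.mpr (hj 3))
  linarith

theorem hl_corner (a b c d : V) : Hl a b c d a ∧ Hl a b c d b ∧ Hl a b c d c ∧ Hl a b c d d :=
  ⟨fun _ _ h _ _ _ => h, fun _ _ _ h _ _ => h, fun _ _ _ _ h _ => h, fun _ _ _ _ _ h => h⟩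

/-- a criterion for `T4` in coordinates -/
theorem isT4_mk (A : Fin 4 → V) (P C0 C1 C2 C3 : V) (a0 a1 a2 a3 : ℝ)
    (h0 : RankOneDir C0) (h1 : RankOneDir C1) (h2 : RankOneDir C2) (h3 : RankOneDir C3)
    (hs : C0 + C1 + C2 + C3 = 0) (l0 : 1 ≤ a0) (l1 : 1 ≤ a1) (l2 : 1 ≤ a2) (l3 : 1 ≤ a3)
    (e0 : A 0 = P + a0 • C0) (e1 : A 1 = P + C0 + a1 • C1) (e2 : A 2 = P + C0 + C1 + a2 • C2)
    (e3 : A 3 = P + C0 + C1 + C2 + a3 • C3) : IsT4 A := by
  refine ⟨P, ![C0, C1, C2, C3], ![a0, a1, a2, a3], ?_, ?_, ?_, ?_⟩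
  · intro j; fin_cases j
    · exact h0
    · exact h1
    · exact h2
    · exact h3
  · rw [Fin.sum_univ_four]; exact hs
  · intro j; fin_cases j
    · exact l0
    · exact l1
    · exact l2
    · exact l3
  · intro j; fin_cases j
    · show A 0 = _
      rw [e0]
      rw [show Finset.univ.filter (fun i : Fin 4 => i < ⟨0, by norm_num⟩) = ∅ by decide]
      simp
    · show A 1 = _
      rw [e1]
      rw [show Finset.univ.filter (fun i : Fin 4 => i < ⟨1, by norm_num⟩) = {0} by decide]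
      simp
    · show A 2 = _
      rw [e2]
      rw [show Finset.univ.filter (fun i : Fin 4 => i < ⟨2, by norm_num⟩) = {0, 1} by decide]
      rw [Finset.sum_pair (by decide)]
      simp [add_assoc]
    · show A 3 = _
      rw [e3]
      rw [show Finset.univ.filter (fun i : Fin 4 => i < ⟨3, by norm_num⟩) = {0, 1, 2} by decide]
      rw [Finset.sum_insert (by decide), Finset.sum_pair (by decide)]
      simp [add_assoc]

theorem rod_x {u w : ℝ} (h : u ≠ 0) : RankOneDir ((u, 0, w) : V) :=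
  ⟨fun e => h (by simpa using congrArg Prod.fst e), by simp⟩

theorem rod_y {v w : ℝ} (h : v ≠ 0) : RankOneDir ((0, v, w) : V) :=
  ⟨fun e => h (by simpa using congrArg (fun q : V => q.2.1) e), by simp⟩

theorem t4a : IsT4 (![(3, 1, 1), (2, -1, 0), (-1, 0, 0), (0, 3, 0)] : Fin 4 → V) := by
  refine isT4_mk _ (0, 1, 1/13) (2, 0, 8/13) (0, -1, -9/26) (-2, 0, -3/13) (0, 1, -1/26)
    (3/2) 2 (3/2) 3 (rod_x (by norm_num)) (rod_y (by norm_num)) (rod_x (by norm_num))
    (rod_y (by norm_num)) ?_ (by norm_num) (by norm_num) (by norm_num) (by norm_num) ?_ ?_ ?_ ?_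
  · simp only [Prod.mk_add_mk]
    rw [Prod.mk_eq_zero, Prod.mk_eq_zero]; norm_num
  all_goals
    simp only [Prod.smul_mk, smul_eq_mul, Prod.mk_add_mk]
    norm_num
  all_goals rfl

theorem t4b : IsT4 (![(3, 1, 1), (2, -1, 0), (-1, 0, 0), (3/2, 2, 3/2)] : Fin 4 → V) := by
  refine isT4_mk _ (3/2, 1, 59/62) (1/2, 0, 1/62) (0, -1, -15/31) (-1/2, 0, -5/62)
    (0, 1, 17/31) 3 2 6 2 (rod_x (by norm_num)) (rod_y (by norm_num)) (rod_x (by norm_num))
    (rod_y (by norm_num)) ?_ (by norm_num) (by norm_num) (by norm_num) (by norm_num) ?_ ?_ ?_ ?_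
  · simp only [Prod.mk_add_mk]
    rw [Prod.mk_eq_zero, Prod.mk_eq_zero]; norm_num
  all_goals
    simp only [Prod.smul_mk, smul_eq_mul, Prod.mk_add_mk]
    norm_num
  all_goals rfl

theorem t4c : IsT4 (![(3, 1, 1), (2, -1, 0), (1, 1/2, -2), (3/2, 2, 3/2)] : Fin 4 → V) := by
  refine isT4_mk _ (3/2, 1, -1/10) (1/2, 0, 11/30) (0, -1/2, -1/15) (-1/2, 0, -11/10)
    (0, 1/2, 4/5) 3 4 2 3 (rod_x (by norm_num)) (rod_y (by norm_num)) (rod_x (by norm_num))
    (rod_y (by norm_num)) ?_ (by norm_num) (by norm_num) (by norm_num) (by norm_num) ?_ ?_ ?_ ?_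
  · simp only [Prod.mk_add_mk]
    rw [Prod.mk_eq_zero, Prod.mk_eq_zero]; norm_num
  all_goals
    simp only [Prod.smul_mk, smul_eq_mul, Prod.mk_add_mk]
    norm_num
  all_goals rfl

theorem K6_sub_stepIn : (K6 : Set V) ⊆ stepIn convRCmax (K6 : Set V) := by
  have m1 : ((-1, 0, 0) : V) ∈ (K6 : Set V) := mem_K6.mpr (by tauto)
  have m2 : ((2, -1, 0) : V) ∈ (K6 : Set V) := mem_K6.mpr (by tauto)
  have m3 : ((3, 1, 1) : V) ∈ (K6 : Set V) := mem_K6.mpr (by tauto)
  have m4 : ((1, 1/2, -2) : V) ∈ (K6 : Set V) := mem_K6.mpr (by tauto)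
  have m5 : ((3/2, 2, 3/2) : V) ∈ (K6 : Set V) := mem_K6.mpr (by tauto)
  have m6 : ((0, 3, 0) : V) ∈ (K6 : Set V) := mem_K6.mpr (by tauto)
  have ha : ∀ j, (![(3, 1, 1), (2, -1, 0), (-1, 0, 0), (0, 3, 0)] : Fin 4 → V) j ∈
      (K6 : Set V) := by
    intro j; fin_cases j
    · exact m3
    · exact m2
    · exact m1
    · exact m6
  have hc : ∀ j, (![(3, 1, 1), (2, -1, 0), (1, 1/2, -2), (3/2, 2, 3/2)] : Fin 4 → V) j ∈
      (K6 : Set V) := by
    intro j; fin_cases j
    · exact m3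
    · exact m2
    · exact m4
    · exact m5
  intro p hp
  rcases mem_K6.mp hp with rfl | rfl | rfl | rfl | rfl | rfl
  · exact Or.inl ⟨_, ha, t4a, convRCmax_of_hl (hl_corner _ _ _ _).2.2.1⟩
  · exact Or.inl ⟨_, ha, t4a, convRCmax_of_hl (hl_corner _ _ _ _).2.1⟩
  · exact Or.inl ⟨_, ha, t4a, convRCmax_of_hl (hl_corner _ _ _ _).1⟩
  · exact Or.inl ⟨_, hc, t4c, convRCmax_of_hl (hl_corner _ _ _ _).2.2.1⟩
  · exact Or.inl ⟨_, hc, t4c, convRCmax_of_hl (hl_corner _ _ _ _).2.2.2⟩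
  · exact Or.inl ⟨_, ha, t4a, convRCmax_of_hl (hl_corner _ _ _ _).2.2.2⟩

/-- `K^(i)`, literal form (`S` itself is not kept by the step) -/
def iterIn (H : Set V → Set V) (K : Set V) (i : ℕ) : Set V := (stepIn H)^[i] K

theorem iterIn_sub_iter (H : Set V → Set V) (K : Set V) (i : ℕ) : iterIn H K i ⊆ iter H K i := by
  induction i with
  | zero => exact subset_rfl
  | succ i ih =>
    unfold iterIn iter at ih ⊢
    rw [Function.iterate_succ_apply', Function.iterate_succ_apply', step_eq]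
    exact (stepIn_mono H ih).trans subset_union_right

theorem iterIn_succ (i : ℕ) : iterIn convRCmax (K6 : Set V) i ⊆
    iterIn convRCmax (K6 : Set V) (i + 1) := by
  induction i with
  | zero => exact K6_sub_stepIn
  | succ i ih =>
    unfold iterIn at ih ⊢
    rw [Function.iterate_succ_apply'] at ih ⊢
    rw [Function.iterate_succ_apply' (n := i + 1), Function.iterate_succ_apply']
    exact stepIn_mono _ ih

theorem iterIn_mono {i j : ℕ} (h : i ≤ j) : iterIn convRCmax (K6 : Set V) i ⊆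
    iterIn convRCmax (K6 : Set V) j := by
  induction h with
  | refl => exact subset_rfl
  | step _ ih => exact ih.trans (iterIn_succ _)

/-- closure of the increasing union under rank-one segments -/
theorem union_seg {A B p : V} (hA : A ∈ ⋃ i, iterIn convRCmax (K6 : Set V) i)
    (hB : B ∈ ⋃ i, iterIn convRCmax (K6 : Set V) i) (hD : RankOneDir (B - A)) (t : ℝ)
    (h0 : 0 ≤ t) (h1 : t ≤ 1) (hp : p = (1 - t) • A + t • B) :
    p ∈ ⋃ i, iterIn convRCmax (K6 : Set V) i := by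
  obtain ⟨i, hi⟩ := mem_iUnion.mp hA
  obtain ⟨j, hj⟩ := mem_iUnion.mp hB
  refine mem_iUnion.mpr ⟨max i j + 1, ?_⟩
  unfold iterIn
  rw [Function.iterate_succ_apply']
  right
  refine ⟨A, iterIn_mono (le_max_left i j) hi, B, iterIn_mono (le_max_right i j) hj, hD, ?_⟩
  rw [segment_eq_image]
  exact ⟨t, ⟨h0, h1⟩, hp.symm⟩

theorem union_K {p : V} (hp : p ∈ (K6 : Set V)) : p ∈ ⋃ i, iterIn convRCmax (K6 : Set V) i :=
  mem_iUnion.mpr ⟨0, hp⟩

theorem start_mem : ((0, 0, 3/26) : V) ∈ ⋃ i, iterIn convRCmax (K6 : Set V) i := by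
  refine mem_iUnion.mpr ⟨1, ?_⟩
  have m1 : ((-1, 0, 0) : V) ∈ (K6 : Set V) := mem_K6.mpr (by tauto)
  have m2 : ((2, -1, 0) : V) ∈ (K6 : Set V) := mem_K6.mpr (by tauto)
  have m3 : ((3, 1, 1) : V) ∈ (K6 : Set V) := mem_K6.mpr (by tauto)
  have m6 : ((0, 3, 0) : V) ∈ (K6 : Set V) := mem_K6.mpr (by tauto)
  left
  refine ⟨![(3, 1, 1), (2, -1, 0), (-1, 0, 0), (0, 3, 0)], ?_, t4a, ?_⟩
  · intro j; fin_cases j
    · exact m3
    · exact m2
    · exact m1
    · exact m6
  · apply convRCmax_of_hl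
    have cyc : Cyc (3, 1, 1) (2, -1, 0) (-1, 0, 0) (0, 3, 0)
        (0, 1, 1/13) (2, 1, 9/13) (2, 0, 9/26) (0, 0, 3/26) (2/3) (1/2) (2/3) (1/3) := by
      refine ⟨by norm_num, by norm_num, by norm_num, by norm_num, by norm_num, by norm_num,
        by norm_num, by norm_num, ?_, ?_, ?_, ?_, Or.inr rfl, Or.inl rfl, Or.inr rfl,
        Or.inl rfl⟩
      all_goals
        simp only [Prod.smul_mk, smul_eq_mul, Prod.mk_add_mk]
        norm_num
    have := cyc.rot.rot.rot.hl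
    exact this.rot

theorem descend {c : ℝ} (h : ((0, 0, c) : V) ∈ ⋃ i, iterIn convRCmax (K6 : Set V) i) :
    ((0, 0, c / 324) : V) ∈ ⋃ i, iterIn convRCmax (K6 : Set V) i := by
  have m1 : ((-1, 0, 0) : V) ∈ (K6 : Set V) := mem_K6.mpr (by tauto)
  have m2 : ((2, -1, 0) : V) ∈ (K6 : Set V) := mem_K6.mpr (by tauto)
  have m3 : ((3, 1, 1) : V) ∈ (K6 : Set V) := mem_K6.mpr (by tauto)
  have m4 : ((1, 1/2, -2) : V) ∈ (K6 : Set V) := mem_K6.mpr (by tauto)
  have m5 : ((3/2, 2, 3/2) : V) ∈ (K6 : Set V) := mem_K6.mpr (by tauto)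
  have m6 : ((0, 3, 0) : V) ∈ (K6 : Set V) := mem_K6.mpr (by tauto)
  have h6 : ((0, 2, c / 3) : V) ∈ ⋃ i, iterIn convRCmax (K6 : Set V) i := by
    refine union_seg (union_K m6) h ?_ (1/3) (by norm_num) (by norm_num) ?_
    · rw [Prod.mk_sub_mk, Prod.mk_sub_mk, sub_self]
      exact rod_y (by norm_num)
    · simp only [Prod.smul_mk, smul_eq_mul, Prod.mk_add_mk, Prod.mk.injEq]
      refine ⟨by norm_num, by norm_num, by ring⟩
  have h5 : ((1, 2, 1 + c / 9) : V) ∈ ⋃ i, iterIn convRCmax (K6 : Set V) i := by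
    refine union_seg (union_K m5) h6 ?_ (1/3) (by norm_num) (by norm_num) ?_
    · rw [Prod.mk_sub_mk, Prod.mk_sub_mk, sub_self]
      exact rod_x (by norm_num)
    · simp only [Prod.smul_mk, smul_eq_mul, Prod.mk_add_mk, Prod.mk.injEq]
      refine ⟨by norm_num, by norm_num, by ring⟩
  have h4 : ((1, 1, -1 + c / 27) : V) ∈ ⋃ i, iterIn convRCmax (K6 : Set V) i := by
    refine union_seg (union_K m4) h5 ?_ (1/3) (by norm_num) (by norm_num) ?_
    · rw [Prod.mk_sub_mk, Prod.mk_sub_mk, sub_self]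
      exact rod_y (by norm_num)
    · simp only [Prod.smul_mk, smul_eq_mul, Prod.mk_add_mk, Prod.mk.injEq]
      refine ⟨by norm_num, by norm_num, by ring⟩
  have h3 : ((2, 1, c / 54) : V) ∈ ⋃ i, iterIn convRCmax (K6 : Set V) i := by
    refine union_seg (union_K m3) h4 ?_ (1/2) (by norm_num) (by norm_num) ?_
    · rw [Prod.mk_sub_mk, Prod.mk_sub_mk, sub_self]
      exact rod_x (by norm_num)
    · simp only [Prod.smul_mk, smul_eq_mul, Prod.mk_add_mk, Prod.mk.injEq]
      refine ⟨by norm_num, by norm_num, by ring⟩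
  have h2 : ((2, 0, c / 108) : V) ∈ ⋃ i, iterIn convRCmax (K6 : Set V) i := by
    refine union_seg (union_K m2) h3 ?_ (1/2) (by norm_num) (by norm_num) ?_
    · rw [Prod.mk_sub_mk, Prod.mk_sub_mk, sub_self]
      exact rod_y (by norm_num)
    · simp only [Prod.smul_mk, smul_eq_mul, Prod.mk_add_mk, Prod.mk.injEq]
      refine ⟨by norm_num, by norm_num, by ring⟩
  refine union_seg (union_K m1) h2 ?_ (1/3) (by norm_num) (by norm_num) ?_
  · rw [Prod.mk_sub_mk, Prod.mk_sub_mk, sub_self]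
    exact rod_x (by norm_num)
  · simp only [Prod.smul_mk, smul_eq_mul, Prod.mk_add_mk, Prod.mk.injEq]
    refine ⟨by norm_num, by norm_num, by ring⟩

/-- **Second question.**  For the same six-point set the iteration does not stop. -/
theorem no_stop : ∃ K : Finset V, K.card = 6 ∧ ∀ N : ℕ,
    (⋃ i ∈ Set.Iic N, iterIn convRCmax (K : Set V) i) ≠ ⋃ i, iterIn convRCmax (K : Set V) i := by
  refine ⟨K6, K6_card, ?_⟩
  intro N hN
  obtain ⟨S, hS, hsub⟩ := iter_good (fun A p => hl_of_convRCmax) good_K6 N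
  have hall : (⋃ i, iterIn convRCmax (K6 : Set V) i) ⊆ S := by
    rw [← hN]
    refine iUnion₂_subset ?_
    intro i hi
    exact (iterIn_mono hi).trans ((iterIn_sub_iter _ _ _).trans hsub)
  have hseq : ∀ n : ℕ, ((0, 0, (3/26) * (1/324) ^ n) : V) ∈ S := by
    intro n
    apply hall
    induction n with
    | zero => simpa using start_mem
    | succ n ih =>
      have := descend ih
      have e : (3 / 26 : ℝ) * (1 / 324) ^ (n + 1) = (3 / 26) * (1 / 324) ^ n / 324 := by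
        rw [pow_succ]; ring
      rw [e]; exact this
  have hlim : Filter.Tendsto (fun n : ℕ => ((0, 0, (3/26) * (1/324) ^ n) : V)) Filter.atTop
      (nhds (0, 0, 0)) := by
    refine Filter.Tendsto.prodMk_nhds tendsto_const_nhds (Filter.Tendsto.prodMk_nhds
      tendsto_const_nhds ?_)
    have := (tendsto_pow_atTop_nhds_zero_of_lt_one (r := (1/324 : ℝ)) (by norm_num)
      (by norm_num)).const_mul (3/26 : ℝ)
    simpa using this
  have : ((0, 0, 0) : V) ∈ S :=
    hS.1.isClosed.mem_of_tendsto hlim (Filter.Eventually.of_forall hseq)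
  exact hS.2.2 _ this origin_onZ

end Pool.Agent.R783.T4
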